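import Mathlib

/-! Measures on roots of unity: definitions and integrals. -/

set_option autoImplicit false

open MeasureTheory Polynomial Filter Topology
open scoped BigOperators ENNReal ComplexConjugate

namespace Pool.Agent.K1H23.Bm

/-- the `l`-th power of `exp (2 π i / n)` -/
noncomputable def rt (n l : ℕ) : ℂ := (Complex.exp (2 * Real.pi * Complex.I / n)) ^ l

/-- the uniform probability measure on the `n`-th roots of unity -/
noncomputable def sg (n : ℕ) : Measure ℂ :=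
  ∑ l ∈ Finset.range n, (n : ℝ≥0∞)⁻¹ • Measure.dirac (rt n l)

/-- the weights -/
noncomputable def ep (j : ℕ) : ℝ := Real.exp (-(4:ℝ) ^ (j + 1))

/-- the measure -/
noncomputable def nu : Measure ℂ :=
  Measure.sum fun j : ℕ => ENNReal.ofReal (ep j) • sg (2 ^ j)

/-- the tail of the weights -/
noncomputable def ta (j : ℕ) : ℝ := ∑' i : ℕ, ep (j + 1 + i)

theorem norm_rt (n l : ℕ) : ‖rt n l‖ = 1 := by
  unfold rt
  rw [norm_pow]
  have : (2 * Real.pi * Complex.I / n : ℂ) = ((2 * Real.pi / n : ℝ) : ℂ) * Complex.I := by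
    push_cast; ring
  rw [this, Complex.norm_exp_ofReal_mul_I, one_pow]

theorem rt_pow_self {n : ℕ} (hn : n ≠ 0) (l : ℕ) : rt n l ^ n = 1 := by
  have h := Complex.isPrimitiveRoot_exp n hn
  unfold rt
  rw [← pow_mul, mul_comm l n, pow_mul, h.pow_eq_one, one_pow]

theorem sum_rt_pow {n : ℕ} (hn : n ≠ 0) (m : ℕ) :
    ∑ l ∈ Finset.range n, rt n l ^ m = if n ∣ m then (n : ℂ) else 0 := by
  have h := Complex.isPrimitiveRoot_exp n hn
  set z := Complex.exp (2 * Real.pi * Complex.I / n) with hz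
  have e : ∀ l, rt n l ^ m = (z ^ m) ^ l := by
    intro l
    unfold rt
    rw [← pow_mul, ← pow_mul, mul_comm l m]
  simp only [e]
  split_ifs with hd
  · obtain ⟨c, rfl⟩ := hd
    rw [pow_mul, h.pow_eq_one, one_pow]
    simp
  · have h1 : z ^ m ≠ 1 := fun hc => hd ((h.pow_eq_one_iff_dvd m).1 hc)
    have h2 := mul_neg_geom_sum (z ^ m) n
    have h3 : (z ^ m) ^ n = 1 := by rw [← pow_mul, mul_comm m n, pow_mul, h.pow_eq_one, one_pow]
    rw [h3, sub_self] at h2
    rcases mul_eq_zero.1 h2 with h4 | h4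
    · exact absurd (sub_eq_zero.1 h4).symm h1
    · exact h4

theorem integral_sg (n : ℕ) (f : ℂ → ℂ) :
    ∫ z, f z ∂(sg n) = (n : ℂ)⁻¹ * ∑ l ∈ Finset.range n, f (rt n l) := by
  unfold sg
  rw [integral_finsetSum_measure]
  · rw [Finset.mul_sum]
    refine Finset.sum_congr rfl fun l _ => ?_
    rw [integral_smul_measure, integral_dirac]
    rw [ENNReal.toReal_inv, ENNReal.toReal_natCast]
    rw [Complex.real_smul]
    push_cast
    ring
  · intro l _
    refine Integrable.smul_measure (integrable_dirac (by simp)) ?_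
    simp only [ne_eq, ENNReal.inv_eq_top, Nat.cast_eq_zero]
    rintro rfl
    simp_all

theorem ep_pos (j : ℕ) : 0 < ep j := Real.exp_pos _

theorem ep_le_one (j : ℕ) : ep j ≤ 1 := by
  unfold ep
  rw [Real.exp_le_one_iff]
  have : (0:ℝ) < 4 ^ (j + 1) := by positivity
  linarith

theorem succ_le_four_pow (i : ℕ) : i + 1 ≤ 4 ^ i := by
  induction i with
  | zero => simp
  | succ i ih =>
    rw [pow_succ]; omega

theorem ep_le (j i : ℕ) : ep (j + i) ≤ (Real.exp (-(4:ℝ) ^ (j + 1))) ^ (i + 1) := by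
  unfold ep
  rw [← Real.exp_nat_mul]
  apply Real.exp_le_exp.2
  have h1 : (4:ℝ) ^ (j + i + 1) = 4 ^ (j + 1) * 4 ^ i := by ring
  have h2 : ((i + 1 : ℕ) : ℝ) ≤ 4 ^ i := by
    exact_mod_cast succ_le_four_pow i
  rw [h1]
  have h3 : (0:ℝ) < 4 ^ (j + 1) := by positivity
  nlinarith

theorem summable_ep' (j : ℕ) : Summable fun i => ep (j + i) := by
  have h1 : Real.exp (-(4:ℝ) ^ (j + 1)) < 1 := by
    rw [Real.exp_lt_one_iff]
    have : (0:ℝ) < 4 ^ (j + 1) := by positivity
    linarith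
  refine Summable.of_nonneg_of_le (fun i => (ep_pos _).le) (ep_le j) ?_
  exact (summable_geometric_of_lt_one (Real.exp_pos _).le h1).comp_injective
    (add_left_injective 1)

theorem summable_ep : Summable ep := by simpa using summable_ep' 0

theorem ta_pos (j : ℕ) : 0 < ta j :=
  (summable_ep' (j + 1)).tsum_pos (fun _ => (ep_pos _).le) 0 (ep_pos _)

theorem ta_le (j : ℕ) : ta j ≤ 2 * ep (j + 1) := by
  set x := Real.exp (-(4:ℝ) ^ (j + 1 + 1)) with hx
  have hx0 : 0 < x := Real.exp_pos _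
  have h4 : (1:ℝ) ≤ 4 ^ (j + 1 + 1) := one_le_pow₀ (by norm_num)
  have hx1 : x ≤ 1 / 2 := by
    calc x ≤ Real.exp (-1) := Real.exp_le_exp.2 (by linarith)
      _ ≤ 1 / 2 := by
        rw [Real.exp_neg]
        have := Real.add_one_le_exp (1:ℝ)
        rw [inv_eq_one_div]
        apply one_div_le_one_div_of_le <;> linarith
  have h1 : HasSum (fun i : ℕ => x ^ (i + 1)) (x * (1 - x)⁻¹) := by
    have := (hasSum_geometric_of_lt_one hx0.le (by linarith)).mul_left x
    refine this.congr_fun ?_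
    intro i
    ring
  calc ta j ≤ ∑' i : ℕ, x ^ (i + 1) :=
        (summable_ep' (j + 1)).tsum_le_tsum (fun i => ep_le (j + 1) i) h1.summable
    _ = x * (1 - x)⁻¹ := h1.tsum_eq
    _ ≤ x * 2 := by
        apply mul_le_mul_of_nonneg_left _ hx0.le
        rw [inv_le_comm₀ (by linarith) (by norm_num)]
        linarith
    _ = 2 * ep (j + 1) := by rw [mul_comm]; rfl

/-- the tail is very small -/
theorem ta_le' (j : ℕ) : ta j ≤ ep j * Real.exp (-(4 * (2:ℝ) ^ j)) := by
  refine (ta_le j).trans ?_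
  have h2 : (2:ℝ) ≤ Real.exp 1 := by have := Real.add_one_le_exp (1:ℝ); linarith
  unfold ep
  rw [← Real.exp_add]
  calc 2 * Real.exp (-(4:ℝ) ^ (j + 1 + 1)) ≤ Real.exp 1 * Real.exp (-(4:ℝ) ^ (j + 1 + 1)) := by
        gcongr
    _ = Real.exp (1 + -(4:ℝ) ^ (j + 1 + 1)) := by rw [Real.exp_add]
    _ ≤ _ := by
        apply Real.exp_le_exp.2
        have h3 : (4:ℝ) ^ j = 2 ^ j * 2 ^ j := by
          rw [← mul_pow]; norm_num
        have h4 : (1:ℝ) ≤ 2 ^ j := one_le_pow₀ (by norm_num)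
        have h5 : (4:ℝ) ^ (j + 1 + 1) = 16 * (2 ^ j * 2 ^ j) := by rw [pow_succ, pow_succ, h3]; ring
        have h6 : (4:ℝ) ^ (j + 1) = 4 * (2 ^ j * 2 ^ j) := by rw [pow_succ, h3]; ring
        rw [h5, h6]
        nlinarith

end Pool.Agent.K1H23.Bm
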