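import Pool.Agent.K1H23.Bm.A

/-! Facts on the measure `nu`. -/

set_option autoImplicit false

open MeasureTheory Polynomial Filter Topology Metric Set
open scoped BigOperators ENNReal ComplexConjugate

namespace Pool.Agent.K1H23.Bm

theorem measurableSet_sing (z : ℂ) : MeasurableSet ({z} : Set ℂ) := measurableSet_singleton z

theorem sg_apply (n : ℕ) (s : Set ℂ) (hs : MeasurableSet s) :
    sg n s = ∑ l ∈ Finset.range n, (n : ℝ≥0∞)⁻¹ * s.indicator 1 (rt n l) := by
  unfold sg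
  rw [Measure.finsetSum_apply]
  refine Finset.sum_congr rfl fun l _ => ?_
  rw [Measure.smul_apply, Measure.dirac_apply' _ hs, smul_eq_mul]

theorem sg_univ {n : ℕ} (hn : n ≠ 0) : sg n univ = 1 := by
  rw [sg_apply n univ MeasurableSet.univ]
  simp only [indicator_univ, Pi.one_apply, mul_one, Finset.sum_const, Finset.card_range,
    nsmul_eq_mul]
  exact ENNReal.mul_inv_cancel (by exact_mod_cast hn) (by simp)

theorem sg_le_one {n : ℕ} (hn : n ≠ 0) (s : Set ℂ) : sg n s ≤ 1 := by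
  rw [← sg_univ hn]
  exact measure_mono (subset_univ _)

theorem sg_eq_zero (n : ℕ) (s : Set ℂ) (hs : MeasurableSet s) (h : ∀ l, rt n l ∉ s) :
    sg n s = 0 := by
  rw [sg_apply n s hs]
  apply Finset.sum_eq_zero
  intro l _
  rw [indicator_of_notMem (h l), mul_zero]

theorem nu_apply (s : Set ℂ) (hs : MeasurableSet s) :
    nu s = ∑' j : ℕ, ENNReal.ofReal (ep j) * sg (2 ^ j) s := by
  unfold nu
  rw [Measure.sum_apply _ hs]
  rfl

theorem tsum_ofReal_ep (j : ℕ) :
    ∑' i : ℕ, ENNReal.ofReal (ep (j + i)) = ENNReal.ofReal (∑' i : ℕ, ep (j + i)) :=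
  (ENNReal.ofReal_tsum_of_nonneg (fun _ => (ep_pos _).le) (summable_ep' j)).symm

instance isFiniteMeasure_nu : IsFiniteMeasure nu := by
  refine ⟨?_⟩
  rw [nu_apply _ MeasurableSet.univ]
  have : ∀ j : ℕ, ENNReal.ofReal (ep j) * sg (2 ^ j) univ = ENNReal.ofReal (ep (0 + j)) := by
    intro j
    rw [sg_univ (by positivity), mul_one, zero_add]
  simp only [this]
  rw [tsum_ofReal_ep]
  exact ENNReal.ofReal_lt_top

theorem nu_ae_norm : ∀ᵐ z ∂nu, ‖z‖ = 1 := by
  have hs : MeasurableSet {z : ℂ | ¬ ‖z‖ = 1} :=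
    (measurableSet_eq_fun measurable_norm measurable_const).compl
  rw [ae_iff, nu_apply _ hs]
  rw [ENNReal.tsum_eq_zero]
  intro j
  rw [sg_eq_zero _ _ hs (fun l => by simp [norm_rt]), mul_zero]

theorem nu_compl_sphere : nu (sphere (0:ℂ) 1)ᶜ = 0 := by
  have h := nu_ae_norm
  rw [ae_iff] at h
  convert h using 2
  ext z
  simp

theorem integrable_nu {f : ℂ → ℂ} (hf : Continuous f) : Integrable f nu := by
  obtain ⟨C, hC⟩ := (isCompact_sphere (0:ℂ) 1).exists_bound_of_continuousOn hf.continuousOn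
  refine Integrable.of_bound hf.aestronglyMeasurable C ?_
  filter_upwards [nu_ae_norm] with z hz
  exact hC z (by simpa using hz)

theorem integrable_nu_real {f : ℂ → ℝ} (hf : Continuous f) : Integrable f nu := by
  obtain ⟨C, hC⟩ := (isCompact_sphere (0:ℂ) 1).exists_bound_of_continuousOn hf.continuousOn
  refine Integrable.of_bound hf.aestronglyMeasurable C ?_
  filter_upwards [nu_ae_norm] with z hz
  exact hC z (by simpa using hz)

theorem hasSum_nu {f : ℂ → ℂ} (hf : Continuous f) :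
    HasSum (fun j : ℕ => (ep j : ℂ) * ∫ z, f z ∂(sg (2 ^ j))) (∫ z, f z ∂nu) := by
  have h := hasSum_integral_measure (f := f) (μ := fun j : ℕ => ENNReal.ofReal (ep j) • sg (2 ^ j))
    (integrable_nu hf)
  refine h.congr_fun ?_
  intro j
  rw [integral_smul_measure, ENNReal.toReal_ofReal (ep_pos j).le, Complex.real_smul]

/-- moments of the uniform measure on the roots of unity -/
theorem integral_sg_mono {n : ℕ} (hn : n ≠ 0) (a b : ℕ) (hb : b ≤ n) :
    ∫ z, z ^ a * (conj z) ^ b ∂(sg n) = if n ∣ a + (n - b) then 1 else 0 := by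
  rw [integral_sg]
  have e : ∀ l, rt n l ^ a * (conj (rt n l)) ^ b = rt n l ^ (a + (n - b)) := by
    intro l
    have h1 : conj (rt n l) * rt n l = 1 := by
      rw [mul_comm, Complex.mul_conj, Complex.normSq_eq_norm_sq, norm_rt]
      simp
    have h2 : rt n l ^ (n - b) * rt n l ^ b = 1 := by
      rw [← pow_add, Nat.sub_add_cancel hb, rt_pow_self hn]
    have h3 : (conj (rt n l)) ^ b * rt n l ^ b = 1 := by
      rw [← mul_pow, h1, one_pow]
    rw [pow_add]
    calc rt n l ^ a * (conj (rt n l)) ^ b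
        = rt n l ^ a * (conj (rt n l)) ^ b * (rt n l ^ (n - b) * rt n l ^ b) := by rw [h2, mul_one]
      _ = rt n l ^ a * rt n l ^ (n - b) * ((conj (rt n l)) ^ b * rt n l ^ b) := by ring
      _ = rt n l ^ a * rt n l ^ (n - b) := by rw [h3, mul_one]
  simp only [e]
  rw [sum_rt_pow hn]
  have hn' : (n : ℂ) ≠ 0 := by exact_mod_cast hn
  split_ifs
  · rw [inv_mul_cancel₀ hn']
  · rw [mul_zero]

theorem integral_sg_small {n N : ℕ} (hN : N ≠ 0) (hd : N ∣ n) (a b : ℕ) :
    ∫ z, z ^ a * (conj z) ^ b * ((z ^ n - 1) * conj (z ^ n - 1)) ∂(sg N) = 0 := by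
  rw [integral_sg]
  have : ∀ l, rt N l ^ n = 1 := by
    intro l
    obtain ⟨c, rfl⟩ := hd
    rw [pow_mul, rt_pow_self hN, one_pow]
  simp [this]

theorem integral_sg_large {n N : ℕ} (hN : 2 * n ≤ N) (a b : ℕ) (ha : a < n)
    (hb : b < n) :
    ∫ z, z ^ a * (conj z) ^ b * ((z ^ n - 1) * conj (z ^ n - 1)) ∂(sg N)
      = if a = b then 2 else 0 := by
  have hN0 : N ≠ 0 := by omega
  have hint : ∀ c d : ℕ, Integrable (fun z : ℂ => z ^ c * (conj z) ^ d) (sg N) := by
    intro c d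
    unfold sg
    rw [integrable_finsetSum_measure]
    intro l _
    refine Integrable.smul_measure (integrable_dirac enorm_lt_top) ?_
    simp [hN0]
  have e : ∀ z : ℂ, z ^ a * (conj z) ^ b * ((z ^ n - 1) * conj (z ^ n - 1))
      = (z ^ (a + n) * (conj z) ^ (b + n) - z ^ (a + n) * (conj z) ^ b)
        - (z ^ a * (conj z) ^ (b + n) - z ^ a * (conj z) ^ b) := by
    intro z
    simp only [map_sub, map_pow, map_one]
    ring
  simp only [e]
  have i1 : Integrable (fun z : ℂ => z ^ (a + n) * (conj z) ^ (b + n)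
      - z ^ (a + n) * (conj z) ^ b) (sg N) := (hint _ _).sub (hint _ _)
  have i2 : Integrable (fun z : ℂ => z ^ a * (conj z) ^ (b + n)
      - z ^ a * (conj z) ^ b) (sg N) := (hint _ _).sub (hint _ _)
  rw [integral_sub i1 i2,
    integral_sub (hint _ _) (hint _ _), integral_sub (hint _ _) (hint _ _),
    integral_sg_mono hN0 _ _ (by omega), integral_sg_mono hN0 _ _ (by omega),
    integral_sg_mono hN0 _ _ (by omega), integral_sg_mono hN0 _ _ (by omega)]
  have h1 : (N ∣ a + n + (N - (b + n))) ↔ a = b := by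
    constructor
    · rintro ⟨c, hc⟩
      rcases Nat.lt_or_ge c 2 with h | h
      · interval_cases c <;> omega
      · have : N * 2 ≤ N * c := Nat.mul_le_mul_left _ h
        omega
    · rintro rfl
      exact ⟨1, by omega⟩
  have h2 : ¬ (N ∣ a + n + (N - b)) := by
    rintro ⟨c, hc⟩
    rcases Nat.lt_or_ge c 2 with h | h
    · interval_cases c <;> omega
    · rcases Nat.lt_or_ge c 3 with h' | h'
      · interval_cases c; omega
      · have : N * 3 ≤ N * c := Nat.mul_le_mul_left _ h'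
        omega
  have h3 : ¬ (N ∣ a + (N - (b + n))) := by
    rintro ⟨c, hc⟩
    rcases Nat.lt_or_ge c 1 with h | h
    · interval_cases c; omega
    · have : N * 1 ≤ N * c := Nat.mul_le_mul_left _ h
      omega
  have h4 : (N ∣ a + (N - b)) ↔ a = b := by
    constructor
    · rintro ⟨c, hc⟩
      rcases Nat.lt_or_ge c 2 with h | h
      · interval_cases c <;> omega
      · have : N * 2 ≤ N * c := Nat.mul_le_mul_left _ h
        omega
    · rintro rfl
      exact ⟨1, by omega⟩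
  rw [if_neg h2, if_neg h3]
  by_cases hab : a = b
  · rw [if_pos (h1.2 hab), if_pos (h4.2 hab), if_pos hab]
    norm_num
  · rw [if_neg (fun h => hab (h1.1 h)), if_neg (fun h => hab (h4.1 h)), if_neg hab]
    norm_num

/-- the key orthogonality relation -/
theorem integral_nu_key (j a b : ℕ) (ha : a < 2 ^ j) (hb : b < 2 ^ j) :
    ∫ z, z ^ a * (conj z) ^ b * ((z ^ (2 ^ j) - 1) * conj (z ^ (2 ^ j) - 1)) ∂nu
      = if a = b then ((2 * ta j : ℝ) : ℂ) else 0 := by
  have hc : Continuous fun z : ℂ =>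
      z ^ a * (conj z) ^ b * ((z ^ (2 ^ j) - 1) * conj (z ^ (2 ^ j) - 1)) := by
    have := Complex.continuous_conj
    fun_prop
  have hs := hasSum_nu hc
  have h0 : ∀ i, i < j + 1 → (ep i : ℂ) *
      ∫ z, z ^ a * (conj z) ^ b * ((z ^ (2 ^ j) - 1) * conj (z ^ (2 ^ j) - 1)) ∂(sg (2 ^ i)) = 0 := by
    intro i hi
    rw [integral_sg_small (by positivity) (pow_dvd_pow 2 (by omega)), mul_zero]
  have h1 : ∀ i, (ep (j + 1 + i) : ℂ) *
      ∫ z, z ^ a * (conj z) ^ b * ((z ^ (2 ^ j) - 1) * conj (z ^ (2 ^ j) - 1)) ∂(sg (2 ^ (j + 1 + i)))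
      = (ep (j + 1 + i) : ℂ) * (if a = b then 2 else 0) := by
    intro i
    rw [integral_sg_large ?_ a b ha hb]
    calc 2 * 2 ^ j = 2 ^ (j + 1) := by ring
      _ ≤ _ := Nat.pow_le_pow_right (by norm_num) (by omega)
  have hs2 : HasSum (fun i : ℕ => (ep (j + 1 + i) : ℂ) * (if a = b then 2 else 0))
      (∫ z, z ^ a * (conj z) ^ b * ((z ^ (2 ^ j) - 1) * conj (z ^ (2 ^ j) - 1)) ∂nu) := by
    have := (hasSum_nat_add_iff' (j + 1)).2 hs
    rw [Finset.sum_eq_zero (fun i hi => h0 i (Finset.mem_range.1 hi)), sub_zero] at this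
    refine this.congr_fun ?_
    intro i
    rw [← h1 i, add_comm (j + 1) i]
  have hs3 : HasSum (fun i : ℕ => (ep (j + 1 + i) : ℂ) * (if a = b then 2 else 0))
      ((ta j : ℂ) * (if a = b then 2 else 0)) := by
    refine HasSum.mul_right _ ?_
    exact_mod_cast (summable_ep' (j + 1)).hasSum
  rw [hs2.unique hs3]
  split_ifs
  · push_cast; ring
  · ring

/-- the roots of unity -/
noncomputable def Z (n : ℕ) : Finset ℂ := (Finset.range n).image (rt n)

theorem rt_injOn {n : ℕ} (hn : n ≠ 0) : Set.InjOn (rt n) (Finset.range n : Set ℕ) := by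
  intro a ha b hb hab
  have h := Complex.isPrimitiveRoot_exp n hn
  exact h.pow_inj (by simpa using ha) (by simpa using hb) hab

theorem card_Z {n : ℕ} (hn : n ≠ 0) : (Z n).card = n := by
  unfold Z
  rw [Finset.card_image_of_injOn (rt_injOn hn), Finset.card_range]

theorem sum_Z {n : ℕ} (hn : n ≠ 0) (f : ℂ → ℂ) :
    ∑ z ∈ Z n, f z = ∑ l ∈ Finset.range n, f (rt n l) := by
  unfold Z
  rw [Finset.sum_image (rt_injOn hn)]

theorem pow_of_mem_Z {n : ℕ} (hn : n ≠ 0) {z : ℂ} (hz : z ∈ Z n) : z ^ n = 1 := by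
  unfold Z at hz
  obtain ⟨l, _, rfl⟩ := Finset.mem_image.1 hz
  exact rt_pow_self hn l

theorem norm_of_mem_Z {n : ℕ} {z : ℂ} (hz : z ∈ Z n) : ‖z‖ = 1 := by
  unfold Z at hz
  obtain ⟨l, _, rfl⟩ := Finset.mem_image.1 hz
  exact norm_rt n l

theorem rt_mem_Z {n : ℕ} (hn : n ≠ 0) (l : ℕ) : rt n l ∈ Z n := by
  unfold Z
  refine Finset.mem_image.2 ⟨l % n, Finset.mem_range.2 (Nat.mod_lt _ (Nat.pos_of_ne_zero hn)), ?_⟩
  have h : rt n (l % n + n * (l / n)) = rt n l := by rw [Nat.mod_add_div]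
  rw [← h]
  unfold rt
  rw [pow_add, pow_mul, (Complex.isPrimitiveRoot_exp n hn).pow_eq_one, one_pow, mul_one]

theorem mem_Z_of_pow {n : ℕ} (hn : n ≠ 0) {z : ℂ} (hz : z ^ n = 1) : z ∈ Z n := by
  have : NeZero n := ⟨hn⟩
  obtain ⟨l, hl, h⟩ := (Complex.isPrimitiveRoot_exp n hn).eq_pow_of_pow_eq_one hz
  rw [← h]
  exact rt_mem_Z hn l

/-- the tail mass -/
theorem nu_compl_Z (j : ℕ) : nu.real ((Z (2 ^ j) : Set ℂ)ᶜ) ≤ ta j := by
  have hs : MeasurableSet ((Z (2 ^ j) : Set ℂ)ᶜ) := (Finset.measurableSet _).compl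
  have h1 : nu ((Z (2 ^ j) : Set ℂ)ᶜ) ≤ ENNReal.ofReal (ta j) := by
    rw [nu_apply _ hs]
    have hsum := (Summable.sum_add_tsum_nat_add' (f := fun i : ℕ => ENNReal.ofReal (ep i) *
      sg (2 ^ i) ((Z (2 ^ j) : Set ℂ)ᶜ)) (k := j + 1) ENNReal.summable)
    rw [← hsum]
    rw [Finset.sum_eq_zero, zero_add]
    · unfold ta
      rw [← tsum_ofReal_ep]
      apply ENNReal.tsum_le_tsum
      intro i
      rw [add_comm i (j + 1)]
      calc _ ≤ ENNReal.ofReal (ep (j + 1 + i)) * 1 := by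
            gcongr
            exact sg_le_one (by positivity) _
        _ = _ := mul_one _
    · intro i hi
      have hi' : i ≤ j := by have := Finset.mem_range.1 hi; omega
      rw [sg_eq_zero _ _ hs, mul_zero]
      intro l hl
      apply hl
      have : rt (2 ^ i) l ^ (2 ^ j) = 1 := by
        obtain ⟨c, hc⟩ := pow_dvd_pow 2 hi'
        rw [hc, pow_mul, rt_pow_self (by positivity), one_pow]
      exact mem_Z_of_pow (by positivity) this
  calc nu.real ((Z (2 ^ j) : Set ℂ)ᶜ) = (nu ((Z (2 ^ j) : Set ℂ)ᶜ)).toReal := rfl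
    _ ≤ (ENNReal.ofReal (ta j)).toReal := ENNReal.toReal_mono ENNReal.ofReal_ne_top h1
    _ = ta j := ENNReal.toReal_ofReal (ta_pos j).le

/-- the atoms -/
theorem nu_atom (j : ℕ) {z : ℂ} (hz : z ∈ Z (2 ^ j)) :
    ep j / (2 ^ j : ℕ) ≤ nu.real {z} := by
  have h1 : ENNReal.ofReal (ep j / (2 ^ j : ℕ)) ≤ nu {z} := by
    have h2 : (ENNReal.ofReal (ep j) • sg (2 ^ j)) {z} ≤ nu {z} :=
      Measure.le_iff'.1 (Measure.le_sum (fun j : ℕ => ENNReal.ofReal (ep j) • sg (2 ^ j)) j) {z}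
    refine le_trans ?_ h2
    rw [Measure.smul_apply, smul_eq_mul, sg_apply _ _ (measurableSet_singleton z)]
    unfold Z at hz
    obtain ⟨l, hl, rfl⟩ := Finset.mem_image.1 hz
    rw [ENNReal.ofReal_div_of_pos (by positivity), ENNReal.ofReal_natCast, div_eq_mul_inv]
    gcongr
    calc ((2 ^ j : ℕ) : ℝ≥0∞)⁻¹
        = ((2 ^ j : ℕ) : ℝ≥0∞)⁻¹ * ({rt (2 ^ j) l} : Set ℂ).indicator 1 (rt (2 ^ j) l) := by
          simp
      _ ≤ _ := Finset.single_le_sum (f := fun l' => ((2 ^ j : ℕ) : ℝ≥0∞)⁻¹ *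
          ({rt (2 ^ j) l} : Set ℂ).indicator 1 (rt (2 ^ j) l')) (fun _ _ => zero_le) hl
  calc ep j / (2 ^ j : ℕ) = (ENNReal.ofReal (ep j / (2 ^ j : ℕ))).toReal :=
        (ENNReal.toReal_ofReal (div_nonneg (ep_pos j).le (Nat.cast_nonneg _))).symm
    _ ≤ (nu {z}).toReal := ENNReal.toReal_mono (measure_ne_top _ _) h1

end Pool.Agent.K1H23.Bm
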