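import Mathlib

/-!
# Siciak-Zaharjuta extremal function, equilibrium measure and Bergman functions in dimension one

Definitions for problem MP_58ffb3_an in the case `n = 1`.
-/

set_option autoImplicit false

open MeasureTheory Polynomial Filter Topology Metric Set
open scoped BigOperators ComplexConjugate Laplacian ContDiff

namespace Pool.Agent.K1H23.Bm

/-- `u : ℂ → [-∞, ∞)` is plurisubharmonic (= subharmonic, as the dimension is one) on `ℂ`: it is
upper semicontinuous, never `+∞`, and satisfies the sub-mean value inequality on every closed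
disc.  The mean of the upper semicontinuous function `u` over a circle is the infimum of the
means of the continuous functions `φ ≥ u` on the circle.  (The function `u ≡ -∞` is allowed.) -/
def Psh (u : ℂ → EReal) : Prop :=
  UpperSemicontinuous u ∧ (∀ z, u z < ⊤) ∧
    ∀ (a : ℂ) (r : ℝ), 0 < r →
      ∀ φ : ℂ → ℝ, ContinuousOn φ (sphere a r) → (∀ z ∈ sphere a r, u z ≤ ((φ z : ℝ) : EReal)) →
        u a ≤ ((Real.circleAverage φ a r : ℝ) : EReal)

/-- The Siciak-Zaharjuta extremal function of `K`: the supremum of the plurisubharmonic functions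
`u ≤ log⁺ |w| + O(1)` with `u ≤ 0` on `K`. -/
noncomputable def VK (K : Set ℂ) (z : ℂ) : EReal :=
  sSup {t | ∃ u : ℂ → EReal, Psh u ∧
    (∃ C : ℝ, ∀ w, u w ≤ ((Real.posLog ‖w‖ + C : ℝ) : EReal)) ∧ (∀ w ∈ K, u w ≤ 0) ∧ t = u z}

/-- `V_K` is the real-valued continuous function `v`. -/
def IsContVK (K : Set ℂ) (v : ℂ → ℝ) : Prop :=
  Continuous v ∧ ∀ z, VK K z = ((v z : ℝ) : EReal)

/-- `μ = dd^c v` for the continuous function `v` (which is then its own upper semicontinuous
regularisation), `dd^c = (2π)⁻¹ Δ` in the sense of distributions, and `μ` is a probability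
measure.  For `v = V_K` this says that `μ` is the equilibrium measure of `K`. -/
def IsEquilibrium (v : ℂ → ℝ) (μ : Measure ℂ) : Prop :=
  IsProbabilityMeasure μ ∧
    ∀ φ : ℂ → ℝ, ContDiff ℝ ∞ φ → HasCompactSupport φ →
      ∫ z, φ z ∂μ = (2 * Real.pi)⁻¹ * ∫ z, v z * (Δ φ) z

/-- `ν` is a finite positive Borel measure carried by `K` for which `‖·‖_{L²(ν)}` is a norm on the
polynomials (each polynomial is square integrable as soon as `K` is bounded). -/
def IsAdmissible (K : Set ℂ) (ν : Measure ℂ) : Prop :=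
  IsFiniteMeasure ν ∧ ν Kᶜ = 0 ∧ ∀ p : ℂ[X], p ≠ 0 → 0 < ∫ z, ‖p.eval z‖ ^ 2 ∂ν

/-- `e_0, …, e_k` is an `L²(ν)`-orthonormal basis of the space `P_k` of the polynomials of degree
at most `k`: the `e_i` are in `P_k`, they are orthonormal and they span `P_k`. -/
def IsONB (ν : Measure ℂ) (k : ℕ) (e : Fin (k + 1) → ℂ[X]) : Prop :=
  (∀ i, (e i).natDegree ≤ k) ∧
  (∀ i l, ∫ z, (e i).eval z * conj ((e l).eval z) ∂ν = if i = l then 1 else 0) ∧
  ∀ p : ℂ[X], p.natDegree ≤ k → ∃ c : Fin (k + 1) → ℂ, p = ∑ i, C (c i) * e i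

/-- The Bergman function `B_k = |e_0|² + … + |e_k|²`. -/
noncomputable def Berg {k : ℕ} (e : Fin (k + 1) → ℂ[X]) (z : ℂ) : ℝ :=
  ∑ i, ‖(e i).eval z‖ ^ 2

/-- Property (S): `N_k⁻¹ B_k ν → μ` weak-*, where `N_k = k + 1`. -/
def PropS (ν : Measure ℂ) (e : (k : ℕ) → Fin (k + 1) → ℂ[X]) (μ : Measure ℂ) : Prop :=
  ∀ f : ℂ → ℝ, Continuous f →
    Tendsto (fun k : ℕ => ((k : ℝ) + 1)⁻¹ * ∫ z, f z * Berg (e k) z ∂ν) atTop
      (𝓝 (∫ z, f z ∂μ))

/-- Property (W): `(2k)⁻¹ log B_k → v` locally uniformly on `ℂ`. -/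
def PropW (e : (k : ℕ) → Fin (k + 1) → ℂ[X]) (v : ℂ → ℝ) : Prop :=
  TendstoLocallyUniformly (fun (k : ℕ) (z : ℂ) => (2 * (k : ℝ))⁻¹ * Real.log (Berg (e k) z)) v
    atTop

/-- The statement of the question for `n = 1`: for every compact `K ⊆ ℂ` with `V_K` continuous
and every measure `ν` on `K` as in the problem, (S) implies (W). -/
def QuestionDimOne : Prop :=
  ∀ (K : Set ℂ) (v : ℂ → ℝ) (μ ν : Measure ℂ) (e : (k : ℕ) → Fin (k + 1) → ℂ[X]),
    IsCompact K → IsContVK K v → IsEquilibrium v μ → IsAdmissible K ν →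
      (∀ k, IsONB ν k (e k)) → PropS ν e μ → PropW e v

end Pool.Agent.K1H23.Bm
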