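import Pool.Agent.K1H23.Bm.B
import Pool.Agent.K1H23.Bm.Def

/-! Orthonormal bases of polynomial spaces. -/

set_option autoImplicit false

open MeasureTheory Polynomial Filter Topology Metric Set
open scoped BigOperators ENNReal ComplexConjugate

namespace Pool.Agent.K1H23.Bm

theorem cont_eval (p : ℂ[X]) : Continuous fun z : ℂ => p.eval z := p.continuous

theorem cont_ip (p q : ℂ[X]) : Continuous fun z : ℂ => p.eval z * conj (q.eval z) :=
  (cont_eval p).mul (Complex.continuous_conj.comp (cont_eval q))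

theorem int_ip (p q : ℂ[X]) : Integrable (fun z : ℂ => p.eval z * conj (q.eval z)) nu :=
  integrable_nu (cont_ip p q)

/-- the `L²(ν)` inner product of two combinations of orthonormal polynomials -/
theorem ip_expand {k : ℕ} {e : Fin (k + 1) → ℂ[X]} (he : IsONB nu k e)
    (c d : Fin (k + 1) → ℂ) :
    ∫ z, (∑ i, C (c i) * e i).eval z * conj ((∑ i, C (d i) * e i).eval z) ∂nu
      = ∑ i, c i * conj (d i) := by
  have e1 : ∀ z, (∑ i, C (c i) * e i).eval z * conj ((∑ i, C (d i) * e i).eval z)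
      = ∑ i, ∑ l, (c i * conj (d l)) * ((e i).eval z * conj ((e l).eval z)) := by
    intro z
    simp only [eval_finsetSum, eval_mul, eval_C, map_sum, map_mul]
    rw [Finset.sum_mul_sum]
    refine Finset.sum_congr rfl fun i _ => Finset.sum_congr rfl fun l _ => ?_
    ring
  simp only [e1]
  have hint : ∀ i l, Integrable (fun z : ℂ => (c i * conj (d l)) *
      ((e i).eval z * conj ((e l).eval z))) nu := fun i l => (int_ip _ _).const_mul _
  rw [integral_finsetSum _ (fun i _ => integrable_finsetSum _ (fun l _ => hint i l))]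
  refine Finset.sum_congr rfl fun i _ => ?_
  rw [integral_finsetSum _ (fun l _ => hint i l)]
  simp only [integral_const_mul, he.2.1]
  simp

theorem bessel {k M : ℕ} {e : Fin (k + 1) → ℂ[X]} (he : IsONB nu k e) {f : Fin M → ℂ[X]}
    (hf : ∀ a, (f a).natDegree ≤ k) {t : ℝ} (ht : 0 < t)
    (ho : ∀ a b, ∫ z, (f a).eval z * conj ((f b).eval z) ∂nu = if a = b then (t : ℂ) else 0)
    (z : ℂ) : ∑ a, ‖(f a).eval z‖ ^ 2 ≤ t * Berg e z := by
  choose c hc using fun a => he.2.2 (f a) (hf a)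
  have hip : ∀ a b, ∑ i, c a i * conj (c b i) = if a = b then (t : ℂ) else 0 := by
    intro a b
    rw [← ho a b, hc a, hc b, ip_expand he]
  set s : ℝ := (Real.sqrt t)⁻¹ with hs
  have hst : s ^ 2 * t = 1 := by
    rw [hs, inv_pow, Real.sq_sqrt ht.le, inv_mul_cancel₀ ht.ne']
  have hs2 : 0 ≤ s := by positivity
  let v : Fin M → EuclideanSpace ℂ (Fin (k + 1)) := fun a =>
    WithLp.toLp 2 (fun i => (s : ℂ) * conj (c a i))
  have hv : Orthonormal ℂ v := by
    rw [orthonormal_iff_ite]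
    intro a b
    have : inner ℂ (v a) (v b) = (s : ℂ) ^ 2 * ∑ i, c a i * conj (c b i) := by
      rw [PiLp.inner_apply, Finset.mul_sum]
      refine Finset.sum_congr rfl fun i _ => ?_
      simp only [v, RCLike.inner_apply, map_mul, Complex.conj_conj, Complex.conj_ofReal]
      ring
    rw [this, hip]
    split_ifs
    · exact_mod_cast hst
    · simp
  let x : EuclideanSpace ℂ (Fin (k + 1)) := WithLp.toLp 2 (fun i => (e i).eval z)
  have hx : ‖x‖ ^ 2 = Berg e z := by
    rw [EuclideanSpace.norm_sq_eq]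
    rfl
  have hin : ∀ a, inner ℂ (v a) x = (s : ℂ) * (f a).eval z := by
    intro a
    rw [PiLp.inner_apply, hc a, eval_finsetSum, Finset.mul_sum]
    refine Finset.sum_congr rfl fun i _ => ?_
    simp only [v, x, RCLike.inner_apply, map_mul, Complex.conj_conj, Complex.conj_ofReal,
      eval_mul, eval_C]
    ring
  have hb := hv.sum_inner_products_le x (s := Finset.univ)
  rw [hx] at hb
  have h3 : ∀ a, ‖inner ℂ (v a) x‖ ^ 2 = s ^ 2 * ‖(f a).eval z‖ ^ 2 := by
    intro a
    rw [hin a, norm_mul, mul_pow, Complex.norm_real, Real.norm_eq_abs, sq_abs]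
  simp only [h3] at hb
  rw [← Finset.mul_sum] at hb
  have := mul_le_mul_of_nonneg_left hb ht.le
  calc ∑ a, ‖(f a).eval z‖ ^ 2 = t * (s ^ 2 * ∑ a, ‖(f a).eval z‖ ^ 2) := by
        rw [← mul_assoc, mul_comm t, hst, one_mul]
    _ ≤ _ := this

theorem berg_nonneg {k : ℕ} (e : Fin (k + 1) → ℂ[X]) (z : ℂ) : 0 ≤ Berg e z :=
  Finset.sum_nonneg fun _ _ => by positivity

theorem cont_berg {k : ℕ} (e : Fin (k + 1) → ℂ[X]) : Continuous (Berg e) := by
  unfold Berg
  refine continuous_finsetSum _ fun i _ => ?_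
  exact (cont_eval _).norm.pow 2

theorem norm_sq_eq (w : ℂ) : (((‖w‖ ^ 2 : ℝ)) : ℂ) = w * conj w := by
  rw [Complex.mul_conj, Complex.normSq_eq_norm_sq]

theorem integral_norm_sq (p : ℂ[X]) :
    ((∫ z, ‖p.eval z‖ ^ 2 ∂nu : ℝ) : ℂ) = ∫ z, p.eval z * conj (p.eval z) ∂nu := by
  rw [← integral_complex_ofReal]
  refine integral_congr_ae (Eventually.of_forall fun z => ?_)
  exact norm_sq_eq _

theorem integral_berg {k : ℕ} {e : Fin (k + 1) → ℂ[X]} (he : IsONB nu k e) :
    ∫ z, Berg e z ∂nu = k + 1 := by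
  unfold Berg
  have hint : ∀ i, Integrable (fun z : ℂ => ‖(e i).eval z‖ ^ 2) nu := fun i =>
    integrable_nu_real ((cont_eval _).norm.pow 2)
  rw [integral_finsetSum _ (fun i _ => hint i)]
  have : ∀ i, ∫ z, ‖(e i).eval z‖ ^ 2 ∂nu = 1 := by
    intro i
    have h := integral_norm_sq (e i)
    rw [he.2.1 i i, if_pos rfl] at h
    exact_mod_cast h
  simp [this]

/-- the norm property -/
theorem norm_prop (p : ℂ[X]) (hp : p ≠ 0) : 0 < ∫ z, ‖p.eval z‖ ^ 2 ∂nu := by
  have hi : Integrable (fun z : ℂ => ‖p.eval z‖ ^ 2) nu :=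
    integrable_nu_real ((cont_eval p).norm.pow 2)
  refine lt_of_le_of_ne (integral_nonneg fun z => by positivity) ?_
  intro h0
  have h1 := (integral_eq_zero_iff_of_nonneg (fun z => by positivity) hi).1 h0.symm
  obtain ⟨j, hj⟩ : ∃ j : ℕ, p.natDegree < 2 ^ j := ⟨p.natDegree, Nat.lt_two_pow_self⟩
  have h2 : ∀ z ∈ Z (2 ^ j), p.eval z = 0 := by
    intro z hz
    by_contra hne
    have hat := nu_atom j hz
    have hpos : 0 < nu.real {z} :=
      lt_of_lt_of_le (div_pos (ep_pos j) (by positivity)) hat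
    have h3 : nu {w | ¬ (‖p.eval w‖ ^ 2 = (0 : ℂ → ℝ) w)} = 0 := ae_iff.1 h1
    have h4 : nu {z} = 0 := by
      refine measure_mono_null ?_ h3
      rintro w rfl
      simpa using hne
    rw [Measure.real, h4] at hpos
    simp at hpos
  apply hp
  apply Polynomial.eq_zero_of_natDegree_lt_card_of_eval_eq_zero' p (Z (2 ^ j)) h2
  rw [card_Z (by positivity)]
  exact hj

end Pool.Agent.K1H23.Bm
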