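import Pool.Agent.K1H23.Bm.C

/-! Existence of orthonormal bases. -/

set_option autoImplicit false

open MeasureTheory Polynomial Filter Topology Metric Set
open scoped BigOperators ENNReal ComplexConjugate

namespace Pool.Agent.K1H23.Bm

/-- the inner product on `P_k` -/
@[reducible] noncomputable def core (k : ℕ) : InnerProductSpace.Core ℂ (degreeLT ℂ (k + 1)) where
  inner p q := ∫ z, (q : ℂ[X]).eval z * conj ((p : ℂ[X]).eval z) ∂nu
  conj_inner_symm p q := by
    rw [← integral_conj]
    refine integral_congr_ae (Eventually.of_forall fun z => ?_)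
    simp only [map_mul, Complex.conj_conj]
    ring
  re_inner_nonneg p := by
    rw [← integral_norm_sq]
    simp only [RCLike.re_to_complex, Complex.ofReal_re]
    exact integral_nonneg fun z => by positivity
  add_left p q r := by
    rw [← integral_add (int_ip _ _) (int_ip _ _)]
    refine integral_congr_ae (Eventually.of_forall fun z => ?_)
    simp only [Submodule.coe_add, eval_add, map_add]
    ring
  smul_left p q c := by
    rw [← integral_const_mul]
    refine integral_congr_ae (Eventually.of_forall fun z => ?_)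
    simp only [Submodule.coe_smul, eval_smul, smul_eq_mul, map_mul]
    ring
  definite p hp := by
    by_contra hne
    have h1 : (p : ℂ[X]) ≠ 0 := fun h => hne (Subtype.ext h)
    have h2 := norm_prop _ h1
    rw [← integral_norm_sq] at hp
    have h3 : ∫ z, ‖(p : ℂ[X]).eval z‖ ^ 2 ∂nu = 0 := by exact_mod_cast hp
    exact h2.ne' h3

theorem exists_onb (k : ℕ) : ∃ e : Fin (k + 1) → ℂ[X], IsONB nu k e := by
  let _ : NormedAddCommGroup (degreeLT ℂ (k + 1)) := (core k).toNormedAddCommGroup
  let _ : InnerProductSpace ℂ (degreeLT ℂ (k + 1)) := InnerProductSpace.ofCore (core k).toCore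
  have hfd : FiniteDimensional ℂ (degreeLT ℂ (k + 1)) :=
    LinearEquiv.finiteDimensional (degreeLTEquiv ℂ (k + 1)).symm
  have hfr : Module.finrank ℂ (degreeLT ℂ (k + 1)) = k + 1 := by
    rw [(degreeLTEquiv ℂ (k + 1)).finrank_eq]
    simp
  let b := (stdOrthonormalBasis ℂ (degreeLT ℂ (k + 1))).reindex (finCongr hfr)
  refine ⟨fun i => (b i : ℂ[X]), ?_, ?_, ?_⟩
  · intro i
    have := mem_degreeLT.1 (b i).2
    by_cases h0 : (b i : ℂ[X]) = 0
    · show (b i : ℂ[X]).natDegree ≤ k
      rw [h0]; simp
    · exact Nat.lt_succ_iff.1 ((natDegree_lt_iff_degree_lt h0).2 this)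
  · intro i l
    have h := orthonormal_iff_ite.1 b.orthonormal l i
    have h2 : (inner ℂ (b l) (b i) : ℂ)
        = ∫ z, ((b i : ℂ[X])).eval z * conj (((b l : ℂ[X])).eval z) ∂nu := rfl
    rw [← h2, h]
    by_cases hil : i = l
    · rw [if_pos hil, if_pos hil.symm]
    · rw [if_neg hil, if_neg (Ne.symm hil)]
  · intro p hp
    have hp' : p ∈ degreeLT ℂ (k + 1) := by
      rw [mem_degreeLT]
      exact lt_of_le_of_lt degree_le_natDegree (by exact_mod_cast Nat.lt_succ_of_le hp)
    refine ⟨fun i => b.repr ⟨p, hp'⟩ i, ?_⟩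
    have h := b.sum_repr ⟨p, hp'⟩
    have h3 := congrArg (fun q : degreeLT ℂ (k + 1) => (q : ℂ[X])) h
    simp only [Submodule.coe_sum, Submodule.coe_smul] at h3
    refine h3.symm.trans ?_
    refine Finset.sum_congr rfl fun i _ => ?_
    rw [smul_eq_C_mul]

end Pool.Agent.K1H23.Bm
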