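import Pool.Agent.K1H23.Bm.C

/-! The main estimate. -/

set_option autoImplicit false

open MeasureTheory Polynomial Filter Topology Metric Set
open scoped BigOperators ENNReal ComplexConjugate

namespace Pool.Agent.K1H23.Bm

/-- the lower bound coming from the polynomials `z^a (z^n - 1)` -/
theorem berg_lower {j k : ℕ} (h1 : 2 ^ j ≤ k) (h2 : k < 2 * 2 ^ j) {e : Fin (k + 1) → ℂ[X]}
    (he : IsONB nu k e) (z : ℂ) :
    ∑ a : Fin (k + 1 - 2 ^ j), ‖z ^ (a : ℕ) * (z ^ (2 ^ j) - 1)‖ ^ 2 ≤ (2 * ta j) * Berg e z := by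
  have hb := bessel he (M := k + 1 - 2 ^ j)
    (f := fun a => X ^ (a : ℕ) * (X ^ (2 ^ j) - 1)) ?_ (t := 2 * ta j)
    (by have := ta_pos j; positivity) ?_ z
  · simpa using hb
  · intro a
    have ha := a.2
    refine (natDegree_mul_le).trans ?_
    rw [natDegree_X_pow]
    have : (X ^ (2 ^ j) - 1 : ℂ[X]).natDegree ≤ 2 ^ j := by
      refine (natDegree_sub_le _ _).trans ?_
      simp
    omega
  · intro a b
    have ha := a.2
    have hb := b.2
    have hk := integral_nu_key j a b (by omega) (by omega)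
    rw [show (if a = b then ((2 * ta j : ℝ) : ℂ) else 0)
      = if (a : ℕ) = b then ((2 * ta j : ℝ) : ℂ) else 0 by simp [Fin.ext_iff], ← hk]
    refine integral_congr_ae (Eventually.of_forall fun z => ?_)
    simp only [eval_mul, eval_pow, eval_X, eval_sub, eval_one, map_mul, map_pow]
    ring

theorem berg_lower_circle {j k : ℕ} (h1 : 2 ^ j ≤ k) (h2 : k < 2 * 2 ^ j)
    {e : Fin (k + 1) → ℂ[X]} (he : IsONB nu k e) {z : ℂ} (hz : ‖z‖ = 1) :
    ((k + 1 - 2 ^ j : ℕ) : ℝ) * ‖z ^ (2 ^ j) - 1‖ ^ 2 ≤ (2 * ta j) * Berg e z := by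
  have h := berg_lower h1 h2 he z
  simpa [norm_mul, norm_pow, hz] using h

theorem berg_lower_zero {j k : ℕ} (h1 : 2 ^ j ≤ k) (h2 : k < 2 * 2 ^ j)
    {e : Fin (k + 1) → ℂ[X]} (he : IsONB nu k e) :
    1 ≤ (2 * ta j) * Berg e 0 := by
  refine le_trans ?_ (berg_lower h1 h2 he 0)
  have hpos : 0 < k + 1 - 2 ^ j := by omega
  calc (1 : ℝ) = ‖(0 : ℂ) ^ (((⟨0, hpos⟩ : Fin (k + 1 - 2 ^ j)) : ℕ)) * (0 ^ (2 ^ j) - 1)‖ ^ 2 := by
        simp
    _ ≤ _ := Finset.single_le_sum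
        (f := fun a : Fin (k + 1 - 2 ^ j) => ‖(0 : ℂ) ^ (a : ℕ) * (0 ^ (2 ^ j) - 1)‖ ^ 2)
        (fun _ _ => by positivity) (Finset.mem_univ _)

/-- Lagrange polynomial -/
noncomputable def lag (n : ℕ) (ζ : ℂ) : ℂ[X] :=
  ∑ l ∈ Finset.range n, C ((n : ℂ)⁻¹ * (conj ζ) ^ l) * X ^ l

theorem lag_eval (n : ℕ) (ζ z : ℂ) :
    (lag n ζ).eval z = (n : ℂ)⁻¹ * ∑ l ∈ Finset.range n, (conj ζ * z) ^ l := by
  unfold lag
  rw [eval_finsetSum, Finset.mul_sum]
  refine Finset.sum_congr rfl fun l _ => ?_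
  simp only [eval_mul, eval_C, eval_pow, eval_X]
  rw [mul_pow]
  ring

theorem lag_natDegree {n k : ℕ} (hn : n ≤ k + 1) (ζ : ℂ) : (lag n ζ).natDegree ≤ k := by
  unfold lag
  refine natDegree_sum_le_of_forall_le _ _ fun l hl => ?_
  refine (natDegree_C_mul_X_pow_le _ _).trans ?_
  have := Finset.mem_range.1 hl
  omega

theorem lag_norm_le {n : ℕ} (hn : n ≠ 0) {ζ z : ℂ} (hζ : ‖ζ‖ = 1) (hz : ‖z‖ = 1) :
    ‖(lag n ζ).eval z‖ ≤ 1 := by
  rw [lag_eval, norm_mul, norm_inv, Complex.norm_natCast]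
  have h1 : ‖∑ l ∈ Finset.range n, (conj ζ * z) ^ l‖ ≤ n := by
    refine (norm_sum_le _ _).trans ?_
    simp [norm_pow, hζ, hz]
  have hn' : (0 : ℝ) < n := by exact_mod_cast Nat.pos_of_ne_zero hn
  rw [inv_mul_le_iff₀ hn']
  simpa using h1

theorem conj_mul_of_norm {ζ : ℂ} (hζ : ‖ζ‖ = 1) : conj ζ * ζ = 1 := by
  rw [mul_comm, Complex.mul_conj, Complex.normSq_eq_norm_sq, hζ]
  simp

theorem lag_self {n : ℕ} (hn : n ≠ 0) {ζ : ℂ} (hζ : ‖ζ‖ = 1) : (lag n ζ).eval ζ = 1 := by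
  rw [lag_eval, conj_mul_of_norm hζ]
  have hn' : (n : ℂ) ≠ 0 := by exact_mod_cast hn
  simp [hn']

theorem lag_other {n : ℕ} (hn : n ≠ 0) {ζ z : ℂ} (hζ : ζ ∈ Z n) (hz : z ∈ Z n) (hne : z ≠ ζ) :
    (lag n ζ).eval z = 0 := by
  rw [lag_eval]
  have h1 : conj ζ * z ≠ 1 := by
    intro h
    apply hne
    calc z = (conj ζ * ζ) * z := by rw [conj_mul_of_norm (norm_of_mem_Z hζ), one_mul]
      _ = ζ * (conj ζ * z) := by ring
      _ = ζ := by rw [h, mul_one]
  have h2 := mul_neg_geom_sum (conj ζ * z) n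
  have h3 : (conj ζ * z) ^ n = 1 := by
    rw [mul_pow, ← map_pow, pow_of_mem_Z hn hζ, pow_of_mem_Z hn hz]
    simp
  rw [h3, sub_self] at h2
  rcases mul_eq_zero.1 h2 with h4 | h4
  · exact absurd (sub_eq_zero.1 h4).symm h1
  · rw [h4, mul_zero]

theorem berg_atom {j k : ℕ} (h1 : 2 ^ j ≤ k) {e : Fin (k + 1) → ℂ[X]}
    (he : IsONB nu k e) {ζ : ℂ} (hζ : ζ ∈ Z (2 ^ j)) :
    1 ≤ (nu.real {ζ} + ta j) * Berg e ζ := by
  have hn : (2 ^ j : ℕ) ≠ 0 := by positivity
  set p := lag (2 ^ j) ζ with hp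
  have hp0 : p ≠ 0 := by
    intro h0
    have := lag_self hn (norm_of_mem_Z hζ)
    rw [← hp, h0] at this
    simp at this
  have hpos := norm_prop p hp0
  have hle : ∫ z, ‖p.eval z‖ ^ 2 ∂nu ≤ nu.real {ζ} + ta j := by
    have hs1 : MeasurableSet ({ζ} : Set ℂ) := measurableSet_singleton ζ
    have hs2 : MeasurableSet ((Z (2 ^ j) : Set ℂ)ᶜ) := (Finset.measurableSet _).compl
    have hi1 : Integrable (({ζ} : Set ℂ).indicator (1 : ℂ → ℝ)) nu :=
      (integrable_indicator_iff hs1).2 (integrable_const (1:ℝ)).integrableOn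
    have hi2 : Integrable (((Z (2 ^ j) : Set ℂ)ᶜ).indicator (1 : ℂ → ℝ)) nu :=
      (integrable_indicator_iff hs2).2 (integrable_const (1:ℝ)).integrableOn
    calc ∫ z, ‖p.eval z‖ ^ 2 ∂nu
        ≤ ∫ z, (({ζ} : Set ℂ).indicator (1 : ℂ → ℝ) z
            + ((Z (2 ^ j) : Set ℂ)ᶜ).indicator (1 : ℂ → ℝ) z) ∂nu := by
          refine integral_mono_ae (integrable_nu_real ((cont_eval _).norm.pow 2))
            (hi1.add hi2) ?_
          filter_upwards [nu_ae_norm] with z hz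
          have hb : ‖p.eval z‖ ^ 2 ≤ 1 := by
            have := lag_norm_le hn (norm_of_mem_Z hζ) hz
            exact pow_le_one₀ (norm_nonneg _) this
          by_cases hzZ : z ∈ Z (2 ^ j)
          · by_cases hzz : z = ζ
            · subst hzz
              have : (({z} : Set ℂ).indicator (1 : ℂ → ℝ) z) = 1 := by simp
              rw [this]
              have h0 : 0 ≤ ((Z (2 ^ j) : Set ℂ)ᶜ).indicator (1 : ℂ → ℝ) z :=
                indicator_nonneg (fun _ _ => zero_le_one) _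
              linarith
            · rw [hp, lag_other hn hζ hzZ hzz]
              have h0 : 0 ≤ ((Z (2 ^ j) : Set ℂ)ᶜ).indicator (1 : ℂ → ℝ) z :=
                indicator_nonneg (fun _ _ => zero_le_one) _
              have h0' : 0 ≤ ({ζ} : Set ℂ).indicator (1 : ℂ → ℝ) z :=
                indicator_nonneg (fun _ _ => zero_le_one) _
              simp only [norm_zero, ne_eq, OfNat.ofNat_ne_zero, not_false_eq_true, zero_pow]
              linarith
          · have h0' : 0 ≤ ({ζ} : Set ℂ).indicator (1 : ℂ → ℝ) z :=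
              indicator_nonneg (fun _ _ => zero_le_one) _
            have : ((Z (2 ^ j) : Set ℂ)ᶜ).indicator (1 : ℂ → ℝ) z = 1 := by
              rw [indicator_of_mem]
              · rfl
              · simpa using hzZ
            rw [this]
            linarith
      _ = nu.real {ζ} + nu.real ((Z (2 ^ j) : Set ℂ)ᶜ) := by
          rw [integral_add hi1 hi2, integral_indicator_one hs1, integral_indicator_one hs2]
      _ ≤ _ := by
          have := nu_compl_Z j
          linarith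
  have hb := bessel he (M := 1) (f := fun _ => p) (fun _ => lag_natDegree (by omega) ζ) hpos ?_ ζ
  · have hs : ∑ a : Fin 1, ‖p.eval ζ‖ ^ 2 = 1 := by
      rw [hp, lag_self hn (norm_of_mem_Z hζ)]
      simp
    rw [hs] at hb
    exact hb.trans (mul_le_mul_of_nonneg_right hle (berg_nonneg e ζ))
  · intro a b
    rw [if_pos (Subsingleton.elim a b), integral_norm_sq]

/-- every root of unity carries mass almost one -/
theorem berg_atom' {j k : ℕ} (h1 : 2 ^ j ≤ k) {e : Fin (k + 1) → ℂ[X]}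
    (he : IsONB nu k e) {ζ : ℂ} (hζ : ζ ∈ Z (2 ^ j)) :
    (ep j / (2 ^ j : ℕ)) / (ep j / (2 ^ j : ℕ) + ta j) ≤ nu.real {ζ} * Berg e ζ := by
  have h := berg_atom h1 he hζ
  have hat := nu_atom j hζ
  have ht := ta_pos j
  have hx : 0 < ep j / (2 ^ j : ℕ) := div_pos (ep_pos j) (by positivity)
  set x := ep j / (2 ^ j : ℕ) with hxd
  set w := nu.real {ζ} with hw
  have hw0 : 0 < w := by linarith
  have hB : 1 / (w + ta j) ≤ Berg e ζ := by
    rw [div_le_iff₀ (by linarith)]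
    linarith
  calc x / (x + ta j) ≤ w / (w + ta j) := by
        rw [div_le_div_iff₀ (by linarith) (by linarith)]
        nlinarith
    _ = w * (1 / (w + ta j)) := by ring
    _ ≤ w * Berg e ζ := mul_le_mul_of_nonneg_left hB hw0.le

end Pool.Agent.K1H23.Bm
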