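import Pool.Agent.K1H23.Bm.D

/-! The main estimate: the moments of `B_k ν`. -/

set_option autoImplicit false

open MeasureTheory Polynomial Filter Topology Metric Set
open scoped BigOperators ENNReal ComplexConjugate

namespace Pool.Agent.K1H23.Bm

theorem ofReal_norm_sq_sub (z : ℂ) (n : ℕ) :
    ((‖z ^ n - 1‖ ^ 2 : ℝ) : ℂ) = (z ^ n - 1) * conj (z ^ n - 1) := norm_sq_eq _

theorem integral_defect (j : ℕ) : ∫ z, ‖z ^ (2 ^ j) - 1‖ ^ 2 ∂nu = 2 * ta j := by
  have h := integral_nu_key j 0 0 (by positivity) (by positivity)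
  simp only [pow_zero, one_mul, if_true] at h
  have h2 : ((∫ z, ‖z ^ (2 ^ j) - 1‖ ^ 2 ∂nu : ℝ) : ℂ) = ((2 * ta j : ℝ) : ℂ) := by
    rw [← h, ← integral_complex_ofReal]
    refine integral_congr_ae (Eventually.of_forall fun z => ?_)
    exact norm_sq_eq _
  exact_mod_cast h2

theorem integral_defect_moment {j m : ℕ} (hm0 : 0 < m) (hm : m < 2 ^ j) :
    ∫ z, z ^ m * ((‖z ^ (2 ^ j) - 1‖ ^ 2 : ℝ) : ℂ) ∂nu = 0 := by
  have h := integral_nu_key j m 0 hm (by positivity)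
  rw [if_neg (by omega)] at h
  rw [← h]
  refine integral_congr_ae (Eventually.of_forall fun z => ?_)
  show z ^ m * _ = _
  rw [ofReal_norm_sq_sub]
  simp

theorem moment_bound {j k m : ℕ} (h1 : 2 ^ j ≤ k) (h2 : k < 2 * 2 ^ j) (hm0 : 0 < m)
    (hm : m < 2 ^ j) {e : Fin (k + 1) → ℂ[X]} (he : IsONB nu k e) :
    ‖∫ z, z ^ m * (Berg e z : ℂ) ∂nu‖
      ≤ (2 ^ j : ℕ) * (1 - (ep j / (2 ^ j : ℕ)) / (ep j / (2 ^ j : ℕ) + ta j)) := by
  have hn0 : (2 ^ j : ℕ) ≠ 0 := by positivity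
  set n : ℕ := 2 ^ j with hn
  set c : ℝ := (ep j / (n : ℕ)) / (ep j / (n : ℕ) + ta j) with hc
  have ht := ta_pos j
  set D : ℝ := ((k + 1 - n : ℕ) : ℝ) / (2 * ta j) with hD
  set h : ℂ → ℝ := fun z => Berg e z - D * ‖z ^ n - 1‖ ^ 2 with hh
  have hhc : Continuous h := by
    have := cont_berg e
    fun_prop
  have hh0 : ∀ᵐ z ∂nu, 0 ≤ h z := by
    filter_upwards [nu_ae_norm] with z hz
    have := berg_lower_circle h1 h2 he hz
    simp only [hh, hD]
    rw [sub_nonneg, div_mul_eq_mul_div, div_le_iff₀ (by positivity)]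
    linarith
  have hint : ∫ z, h z ∂nu = n := by
    simp only [hh]
    rw [integral_sub (integrable_nu_real (cont_berg e))
      (integrable_nu_real (f := fun z => D * ‖z ^ n - 1‖ ^ 2) (by fun_prop)), integral_berg he,
      integral_const_mul, hn, integral_defect, hD]
    rw [div_mul_cancel₀ _ (by positivity)]
    rw [← hn, Nat.cast_sub (by omega)]
    push_cast
    ring
  -- reduction to `h`
  have hred : ∫ z, z ^ m * (Berg e z : ℂ) ∂nu = ∫ z, z ^ m * (h z : ℂ) ∂nu := by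
    have e1 : ∀ z, z ^ m * (Berg e z : ℂ)
        = z ^ m * (h z : ℂ) + (D : ℂ) * (z ^ m * ((‖z ^ n - 1‖ ^ 2 : ℝ) : ℂ)) := by
      intro z
      simp only [hh]
      push_cast
      ring
    simp only [e1]
    rw [integral_add (integrable_nu (f := fun z => z ^ m * (h z : ℂ)) (by fun_prop))
      (integrable_nu (f := fun z => (D : ℂ) * (z ^ m * ((‖z ^ n - 1‖ ^ 2 : ℝ) : ℂ)))
        (by fun_prop)),
      integral_const_mul, hn, integral_defect_moment hm0 hm, mul_zero, add_zero]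
  rw [hred]
  have hsm : MeasurableSet ((Z n : Finset ℂ) : Set ℂ) := Finset.measurableSet _
  have hIc : Integrable (fun z : ℂ => z ^ m * (h z : ℂ)) nu := integrable_nu (by fun_prop)
  have hIr : Integrable h nu := integrable_nu_real hhc
  rw [← integral_add_compl hsm hIc]
  have hfin := setIntegral_finset (Z n) (f := fun z : ℂ => z ^ m * (h z : ℂ)) hIc.integrableOn
  have hfinr := setIntegral_finset (Z n) (f := h) hIr.integrableOn
  have hZh : ∀ z ∈ Z n, h z = Berg e z := by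
    intro z hz
    simp only [hh]
    rw [pow_of_mem_Z hn0 hz]
    simp
  have hsum0 : ∑ z ∈ Z n, z ^ m = 0 := by
    rw [sum_Z hn0, sum_rt_pow hn0, if_neg]
    exact fun hd => absurd (Nat.le_of_dvd hm0 hd) (by omega)
  have hA : ‖∫ z in (Z n : Set ℂ), z ^ m * (h z : ℂ) ∂nu‖
      ≤ ∫ z in (Z n : Set ℂ), h z ∂nu - n * c := by
    rw [hfin, hfinr]
    have e2 : ∑ z ∈ Z n, nu.real {z} • (z ^ m * (h z : ℂ))
        = ∑ z ∈ Z n, z ^ m * ((nu.real {z} * h z - c : ℝ) : ℂ) := by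
      have : ∑ z ∈ Z n, nu.real {z} • (z ^ m * (h z : ℂ))
          = ∑ z ∈ Z n, (z ^ m * ((nu.real {z} * h z - c : ℝ) : ℂ) + c * z ^ m) := by
        refine Finset.sum_congr rfl fun z _ => ?_
        rw [Complex.real_smul]
        push_cast
        ring
      rw [this, Finset.sum_add_distrib, ← Finset.mul_sum, hsum0, mul_zero, add_zero]
    rw [e2]
    calc ‖∑ z ∈ Z n, z ^ m * ((nu.real {z} * h z - c : ℝ) : ℂ)‖
        ≤ ∑ z ∈ Z n, (nu.real {z} * h z - c) := by
          refine norm_sum_le_of_le _ fun z hz => ?_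
          rw [norm_mul, norm_pow, norm_of_mem_Z hz, one_pow, one_mul, Complex.norm_real,
            Real.norm_eq_abs, abs_of_nonneg]
          have := berg_atom' h1 he (ζ := z) hz
          rw [hZh z hz]
          linarith
      _ = ∑ z ∈ Z n, nu.real {z} • h z - n * c := by
          rw [Finset.sum_sub_distrib, Finset.sum_const, card_Z hn0]
          simp
  have hB : ‖∫ z in (Z n : Set ℂ)ᶜ, z ^ m * (h z : ℂ) ∂nu‖
      ≤ ∫ z in (Z n : Set ℂ)ᶜ, h z ∂nu := by
    refine (norm_integral_le_integral_norm _).trans ?_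
    refine integral_mono_ae hIc.norm.integrableOn hIr.integrableOn ?_
    refine ae_restrict_of_ae ?_
    filter_upwards [nu_ae_norm, hh0] with z hz hz0
    rw [norm_mul, norm_pow, hz, one_pow, one_mul, Complex.norm_real, Real.norm_eq_abs,
      abs_of_nonneg hz0]
  calc _ ≤ ‖∫ z in (Z n : Set ℂ), z ^ m * (h z : ℂ) ∂nu‖
        + ‖∫ z in (Z n : Set ℂ)ᶜ, z ^ m * (h z : ℂ) ∂nu‖ := norm_add_le _ _
    _ ≤ (∫ z in (Z n : Set ℂ), h z ∂nu - n * c) + ∫ z in (Z n : Set ℂ)ᶜ, h z ∂nu :=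
        add_le_add hA hB
    _ = ∫ z, h z ∂nu - n * c := by rw [← integral_add_compl hsm hIr]; ring
    _ = n * (1 - c) := by rw [hint]; ring

theorem moment_bound_one {j k m : ℕ} (h1 : 2 ^ j ≤ k) (h2 : k < 2 * 2 ^ j) (hm0 : 0 < m)
    (hm : m < 2 ^ j) {e : Fin (k + 1) → ℂ[X]} (he : IsONB nu k e) :
    ‖∫ z, z ^ m * (Berg e z : ℂ) ∂nu‖ ≤ 1 := by
  refine (moment_bound h1 h2 hm0 hm he).trans ?_
  have ht := ta_pos j
  have ht' := ta_le' j
  have he := ep_pos j
  set N : ℝ := ((2 ^ j : ℕ) : ℝ) with hN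
  have hN2 : N = (2:ℝ) ^ j := by rw [hN]; push_cast; ring
  have hN0 : 0 < N := by rw [hN2]; positivity
  have hx : 0 < ep j / N := by positivity
  have e1 : 1 - (ep j / N) / (ep j / N + ta j) = ta j / (ep j / N + ta j) := by
    field_simp
    ring
  rw [e1]
  have h3 : ta j / (ep j / N + ta j) ≤ ta j / (ep j / N) := by
    apply div_le_div_of_nonneg_left ht.le hx
    linarith
  have h4 : ta j / (ep j / N) ≤ N * Real.exp (-(4 * N)) := by
    rw [div_div_eq_mul_div, div_le_iff₀ he]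
    rw [← hN2] at ht'
    nlinarith
  have h5 : N ^ 2 * Real.exp (-(4 * N)) ≤ 1 := by
    have h6 : N ≤ Real.exp N := by have := Real.add_one_le_exp N; linarith
    have h7 : Real.exp (-(4 * N)) = (Real.exp N)⁻¹ ^ 4 := by
      rw [← Real.exp_neg, ← Real.exp_nat_mul]
      congr 1
      push_cast
      ring
    have h8 : 1 ≤ Real.exp N := Real.one_le_exp hN0.le
    rw [h7, inv_pow, ← div_eq_mul_inv, div_le_one (by positivity)]
    calc N ^ 2 ≤ Real.exp N ^ 2 := by gcongr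
      _ ≤ Real.exp N ^ 4 := pow_le_pow_right₀ h8 (by norm_num)
  calc N * (ta j / (ep j / N + ta j)) ≤ N * (N * Real.exp (-(4 * N))) := by
        gcongr
        exact h3.trans h4
    _ = N ^ 2 * Real.exp (-(4 * N)) := by ring
    _ ≤ 1 := h5

theorem moment_bound_all {k m : ℕ} (hm0 : 0 < m) (hm : 2 * m ≤ k)
    {e : Fin (k + 1) → ℂ[X]} (he : IsONB nu k e) :
    ‖∫ z, z ^ m * (Berg e z : ℂ) ∂nu‖ ≤ 1 := by
  have hk : k ≠ 0 := by omega
  have h1 : 2 ^ (Nat.log 2 k) ≤ k := Nat.pow_log_le_self 2 hk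
  have h2 : k < 2 ^ (Nat.log 2 k + 1) := Nat.lt_pow_succ_log_self (by norm_num) k
  have h3 : 2 ^ (Nat.log 2 k + 1) = 2 * 2 ^ (Nat.log 2 k) := by ring
  exact moment_bound_one h1 (by omega) hm0 (by omega) he

theorem moment_bound_conj {k m : ℕ} (hm0 : 0 < m) (hm : 2 * m ≤ k)
    {e : Fin (k + 1) → ℂ[X]} (he : IsONB nu k e) :
    ‖∫ z, (conj z) ^ m * (Berg e z : ℂ) ∂nu‖ ≤ 1 := by
  have h := moment_bound_all hm0 hm he
  have e1 : ∫ z, (conj z) ^ m * (Berg e z : ℂ) ∂nu = conj (∫ z, z ^ m * (Berg e z : ℂ) ∂nu) := by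
    rw [← integral_conj]
    refine integral_congr_ae (Eventually.of_forall fun z => ?_)
    simp
  rw [e1, RCLike.norm_conj]
  exact h

end Pool.Agent.K1H23.Bm
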