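import Pool.Agent.K1H23.Bm.D2
import Pool.Agent.R212.Psh4

/-! Property (S). -/

set_option autoImplicit false

open MeasureTheory Polynomial Filter Topology Metric Set
open scoped BigOperators ENNReal ComplexConjugate

namespace Pool.Agent.K1H23.Bm

open Pool.Agent.R212.Psh (ee ee_norm continuous_ee)

/-- the uniform probability measure on the unit circle -/
noncomputable def circ : Measure ℂ :=
  ENNReal.ofReal (2 * Real.pi)⁻¹ •
    Measure.map ee (volume.restrict (Ioc (-Real.pi) Real.pi))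

theorem integral_circ {E : Type*} [NormedAddCommGroup E] [NormedSpace ℝ E] {f : ℂ → E}
    (hf : Continuous f) :
    ∫ z, f z ∂circ = (2 * Real.pi)⁻¹ • ∫ θ in Ioc (-Real.pi) Real.pi, f (ee θ) := by
  unfold circ
  rw [integral_smul_measure, ENNReal.toReal_ofReal (by positivity),
    integral_map continuous_ee.aemeasurable]
  have : SecondCountableTopologyEither ℂ E := inferInstance
  exact hf.aestronglyMeasurable

instance isProb_circ : IsProbabilityMeasure circ := by
  refine ⟨?_⟩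
  unfold circ
  rw [Measure.smul_apply, Measure.map_apply continuous_ee.measurable MeasurableSet.univ,
    preimage_univ, Measure.restrict_apply_univ, Real.volume_Ioc, smul_eq_mul,
    ← ENNReal.ofReal_mul (by positivity), show (2 * Real.pi)⁻¹ * (Real.pi - -Real.pi) = 1 by
      have := Real.pi_pos
      field_simp
      ring]
  exact ENNReal.ofReal_one

theorem integral_circ_pow {m : ℕ} (hm : 0 < m) : ∫ z, z ^ m ∂circ = 0 := by
  rw [integral_circ (continuous_pow m)]
  have e1 : ∀ θ : ℝ, ee θ ^ m = Complex.exp ((m * Complex.I : ℂ) * θ) := by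
    intro θ
    unfold ee
    rw [← Complex.exp_nat_mul]
    congr 1
    ring
  simp only [e1]
  rw [← intervalIntegral.integral_of_le (by have := Real.pi_pos; linarith)]
  have hm' : (m * Complex.I : ℂ) ≠ 0 := by
    have : (m : ℂ) ≠ 0 := by exact_mod_cast hm.ne'
    exact mul_ne_zero this Complex.I_ne_zero
  rw [integral_exp_mul_complex hm']
  have h2 : Complex.exp (m * Complex.I * ((Real.pi : ℝ) : ℂ))
      = Complex.exp (m * Complex.I * (((-Real.pi : ℝ)) : ℂ)) := by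
    rw [Complex.exp_eq_exp_iff_exists_int]
    refine ⟨m, ?_⟩
    push_cast
    ring
  rw [h2, sub_self]
  simp

theorem integral_circ_conj_pow {m : ℕ} (hm : 0 < m) : ∫ z, (conj z) ^ m ∂circ = 0 := by
  have h := integral_circ_pow hm
  have e1 : ∫ z, (conj z) ^ m ∂circ = conj (∫ z, z ^ m ∂circ) := by
    rw [← integral_conj]
    refine integral_congr_ae (Eventually.of_forall fun z => ?_)
    simp
  rw [e1, h, map_zero]

/-- the limit statement for one function -/
def Lim (e : (k : ℕ) → Fin (k + 1) → ℂ[X]) (f : ℂ → ℂ) : Prop :=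
  Tendsto (fun k : ℕ => ((k : ℂ) + 1)⁻¹ * ∫ z, f z * (Berg (e k) z : ℂ) ∂nu) atTop
    (𝓝 (∫ z, f z ∂circ))

variable {e : (k : ℕ) → Fin (k + 1) → ℂ[X]}

theorem cont_cberg (k : ℕ) : Continuous fun z : ℂ => (Berg (e k) z : ℂ) :=
  Complex.continuous_ofReal.comp (cont_berg _)

theorem circ_ae_norm : ∀ᵐ z ∂circ, ‖z‖ = 1 := by
  have hs : MeasurableSet {z : ℂ | ‖z‖ = 1} :=
    measurableSet_eq_fun measurable_norm measurable_const
  unfold circ
  refine Measure.ae_smul_measure ?_ _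
  rw [ae_map_iff continuous_ee.aemeasurable hs]
  exact Eventually.of_forall fun θ => ee_norm θ

theorem integrable_circ {f : ℂ → ℂ} (hf : Continuous f) : Integrable f circ := by
  obtain ⟨C, hC⟩ := (isCompact_sphere (0:ℂ) 1).exists_bound_of_continuousOn hf.continuousOn
  refine Integrable.of_bound hf.aestronglyMeasurable C ?_
  filter_upwards [circ_ae_norm] with z hz
  exact hC z (by simpa using hz)

theorem Lim.add {f g : ℂ → ℂ} (hf : Continuous f) (hg : Continuous g) (h1 : Lim e f)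
    (h2 : Lim e g) : Lim e (fun z => f z + g z) := by
  unfold Lim at *
  have e1 : ∀ k : ℕ, ((k : ℂ) + 1)⁻¹ * ∫ z, (f z + g z) * (Berg (e k) z : ℂ) ∂nu
      = ((k : ℂ) + 1)⁻¹ * ∫ z, f z * (Berg (e k) z : ℂ) ∂nu
        + ((k : ℂ) + 1)⁻¹ * ∫ z, g z * (Berg (e k) z : ℂ) ∂nu := by
    intro k
    rw [← mul_add, ← integral_add
      (integrable_nu (f := fun z => f z * (Berg (e k) z : ℂ)) (hf.mul (cont_cberg k)))
      (integrable_nu (f := fun z => g z * (Berg (e k) z : ℂ)) (hg.mul (cont_cberg k)))]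
    congr 2
    funext z
    ring
  simp only [e1]
  rw [integral_add (integrable_circ hf) (integrable_circ hg)]
  exact Tendsto.add h1 h2

theorem Lim.const_mul {f : ℂ → ℂ} (h1 : Lim e f) (c : ℂ) : Lim e (fun z => c * f z) := by
  unfold Lim at *
  have e1 : ∀ k : ℕ, ((k : ℂ) + 1)⁻¹ * ∫ z, (c * f z) * (Berg (e k) z : ℂ) ∂nu
      = c * (((k : ℂ) + 1)⁻¹ * ∫ z, f z * (Berg (e k) z : ℂ) ∂nu) := by
    intro k
    have : ∀ z, (c * f z) * (Berg (e k) z : ℂ) = c * (f z * (Berg (e k) z : ℂ)) := fun z => by ring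
    simp only [this]
    rw [integral_const_mul]
    ring
  simp only [e1]
  rw [integral_const_mul]
  exact Tendsto.const_mul c h1

theorem inv_cast (k : ℕ) : ((k : ℂ) + 1)⁻¹ = (((k : ℝ) + 1)⁻¹ : ℝ) := by push_cast; rfl

theorem norm_inv_cast (k : ℕ) : ‖((k : ℂ) + 1)⁻¹‖ = ((k : ℝ) + 1)⁻¹ := by
  rw [inv_cast, Complex.norm_real, Real.norm_eq_abs, abs_of_nonneg (by positivity)]

theorem lim_of_bound {f : ℂ → ℂ} (h0 : ∫ z, f z ∂circ = 0)
    (hb : ∃ K : ℕ, ∀ k, K ≤ k → ‖∫ z, f z * (Berg (e k) z : ℂ) ∂nu‖ ≤ 1) : Lim e f := by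
  unfold Lim
  rw [h0]
  obtain ⟨K, hK⟩ := hb
  rw [tendsto_zero_iff_norm_tendsto_zero]
  have h1 : Tendsto (fun k : ℕ => ((k : ℝ) + 1)⁻¹) atTop (𝓝 0) := by
    have := tendsto_one_div_add_atTop_nhds_zero_nat (𝕜 := ℝ)
    simpa [one_div] using this
  refine squeeze_zero' (Eventually.of_forall fun k => norm_nonneg _) ?_ h1
  filter_upwards [eventually_ge_atTop K] with k hk
  rw [norm_mul, norm_inv_cast]
  have := hK k hk
  have h2 : 0 ≤ ((k : ℝ) + 1)⁻¹ := by positivity
  nlinarith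

theorem lim_one (he : ∀ k, IsONB nu k (e k)) : Lim e (fun _ => 1) := by
  unfold Lim
  have e1 : ∀ k : ℕ, ((k : ℂ) + 1)⁻¹ * ∫ z, (1 : ℂ) * (Berg (e k) z : ℂ) ∂nu = 1 := by
    intro k
    simp only [one_mul]
    rw [integral_complex_ofReal, integral_berg (he k)]
    have : ((k : ℂ) + 1) ≠ 0 := by exact_mod_cast Nat.succ_ne_zero k
    push_cast
    rw [inv_mul_cancel₀ this]
  simp only [e1]
  simp

theorem lim_pow (he : ∀ k, IsONB nu k (e k)) (m : ℕ) : Lim e (fun z => z ^ m) := by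
  rcases Nat.eq_zero_or_pos m with rfl | hm
  · simpa using lim_one he
  · exact lim_of_bound (integral_circ_pow hm) ⟨2 * m, fun k hk => moment_bound_all hm hk (he k)⟩

theorem lim_conj_pow (he : ∀ k, IsONB nu k (e k)) (m : ℕ) : Lim e (fun z => (conj z) ^ m) := by
  rcases Nat.eq_zero_or_pos m with rfl | hm
  · simpa using lim_one he
  · exact lim_of_bound (integral_circ_conj_pow hm)
      ⟨2 * m, fun k hk => moment_bound_conj hm hk (he k)⟩

open AddCircle in
theorem lim_span (he : ∀ k, IsONB nu k (e k)) (q : C(AddCircle (1:ℝ), ℂ))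
    (hq : q ∈ Submodule.span ℂ (Set.range (@fourier (1:ℝ)))) :
    ∃ F : ℂ → ℂ, Continuous F ∧ Lim e F ∧ ∀ x, F (toCircle x : ℂ) = q x := by
  induction hq using Submodule.span_induction with
  | mem q hq =>
    obtain ⟨n, rfl⟩ := hq
    rcases le_total 0 n with hn | hn
    · refine ⟨fun z => z ^ n.toNat, by fun_prop, lim_pow he _, fun x => ?_⟩
      show (toCircle x : ℂ) ^ n.toNat = _
      rw [fourier_apply, toCircle_zsmul, Circle.coe_zpow, ← zpow_natCast, Int.toNat_of_nonneg hn]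
    · refine ⟨fun z => (conj z) ^ (-n).toNat, (Complex.continuous_conj.pow _),
        lim_conj_pow he _, fun x => ?_⟩
      show (conj (toCircle x : ℂ)) ^ (-n).toNat = _
      rw [fourier_apply, toCircle_zsmul, Circle.coe_zpow, ← zpow_natCast,
        Int.toNat_of_nonneg (by omega), ← Circle.coe_inv_eq_conj, Circle.coe_inv, inv_zpow,
        zpow_neg, inv_inv]
  | zero => 
    refine ⟨fun _ => 0, continuous_const, ?_, fun x => rfl⟩
    unfold Lim
    simp
  | add p q _ _ hp hq =>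
    obtain ⟨F, hF, h1, h2⟩ := hp
    obtain ⟨G, hG, h3, h4⟩ := hq
    refine ⟨fun z => F z + G z, hF.add hG, h1.add hF hG h3, fun x => ?_⟩
    show F (toCircle x : ℂ) + G (toCircle x : ℂ) = _
    rw [h2, h4]
    rfl
  | smul c q _ hq =>
    obtain ⟨F, hF, h1, h2⟩ := hq
    refine ⟨fun z => c * F z, continuous_const.mul hF, h1.const_mul c, fun x => ?_⟩
    show c * F (toCircle x : ℂ) = _
    rw [h2]
    rfl

theorem mean_bound (he : ∀ k, IsONB nu k (e k)) {g : ℂ → ℂ} {ε : ℝ}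
    (hb : ∀ z, ‖z‖ = 1 → ‖g z‖ ≤ ε) (k : ℕ) :
    ‖((k : ℂ) + 1)⁻¹ * ∫ z, g z * (Berg (e k) z : ℂ) ∂nu‖ ≤ ε := by
  rw [norm_mul, norm_inv_cast]
  have h1 : ‖∫ z, g z * (Berg (e k) z : ℂ) ∂nu‖ ≤ ε * (k + 1) := by
    refine (norm_integral_le_integral_norm _).trans ?_
    rw [← integral_berg (he k), ← integral_const_mul]
    refine integral_mono_of_nonneg (Eventually.of_forall fun _ => norm_nonneg _)
      ((integrable_nu_real (cont_berg _)).const_mul _) ?_
    filter_upwards [nu_ae_norm] with z hz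
    show ‖g z * (Berg (e k) z : ℂ)‖ ≤ ε * Berg (e k) z
    rw [norm_mul, Complex.norm_real, Real.norm_eq_abs, abs_of_nonneg (berg_nonneg _ _)]
    exact mul_le_mul_of_nonneg_right (hb z hz) (berg_nonneg _ _)
  have h2 : (0:ℝ) < (k : ℝ) + 1 := by positivity
  rw [inv_mul_le_iff₀ h2]
  linarith

theorem circ_bound {g : ℂ → ℂ} {ε : ℝ}
    (hb : ∀ z, ‖z‖ = 1 → ‖g z‖ ≤ ε) : ‖∫ z, g z ∂circ‖ ≤ ε := by
  have := norm_integral_le_of_norm_le_const (μ := circ) (f := g) (C := ε) (by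
    filter_upwards [circ_ae_norm] with z hz
    exact hb z hz)
  simpa using this

theorem lim_all (he : ∀ k, IsONB nu k (e k)) {f : ℂ → ℂ} (hf : Continuous f) : Lim e f := by
  have hfact : Fact ((0:ℝ) < 1) := ⟨one_pos⟩
  have approx : ∀ ε : ℝ, 0 < ε → ∃ F : ℂ → ℂ, Continuous F ∧ Lim e F ∧
      ∀ z, ‖z‖ = 1 → ‖f z - F z‖ ≤ ε := by
    intro ε hε
    let g : C(AddCircle (1:ℝ), ℂ) :=
      ⟨fun x => f (AddCircle.toCircle x : ℂ),
        hf.comp (continuous_subtype_val.comp AddCircle.continuous_toCircle)⟩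
    have hg : g ∈ (Submodule.span ℂ (Set.range (@fourier (1:ℝ)))).topologicalClosure := by
      rw [span_fourier_closure_eq_top]
      trivial
    rw [← SetLike.mem_coe, Submodule.topologicalClosure_coe, Metric.mem_closure_iff] at hg
    obtain ⟨q, hq, hd⟩ := hg ε hε
    obtain ⟨F, hF, h1, h2⟩ := lim_span he q hq
    refine ⟨F, hF, h1, fun z hz => ?_⟩
    obtain ⟨x, hx⟩ := (AddCircle.homeomorphCircle (T := (1:ℝ)) one_ne_zero).surjective
      ⟨z, by simpa [Submonoid.unitSphere] using hz⟩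
    rw [AddCircle.homeomorphCircle_apply] at hx
    have hx' : (AddCircle.toCircle x : ℂ) = z := by rw [hx]
    have h3 : dist (g x) (q x) ≤ dist g q := ContinuousMap.dist_apply_le_dist x
    have h4 : g x = f z := by
      show f (AddCircle.toCircle x : ℂ) = f z
      rw [hx']
    rw [h4, ← h2 x, hx', dist_eq_norm] at h3
    linarith
  unfold Lim
  rw [Metric.tendsto_atTop]
  intro ε hε
  obtain ⟨F, hF, h1, h2⟩ := approx (ε / 3) (by positivity)
  unfold Lim at h1
  rw [Metric.tendsto_atTop] at h1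
  obtain ⟨N, hN⟩ := h1 (ε / 3) (by positivity)
  refine ⟨N, fun k hk => ?_⟩
  have h3 := hN k hk
  rw [dist_eq_norm] at h3 ⊢
  have e1 : ((k : ℂ) + 1)⁻¹ * ∫ z, f z * (Berg (e k) z : ℂ) ∂nu
      = ((k : ℂ) + 1)⁻¹ * ∫ z, (f z - F z) * (Berg (e k) z : ℂ) ∂nu
        + ((k : ℂ) + 1)⁻¹ * ∫ z, F z * (Berg (e k) z : ℂ) ∂nu := by
    rw [← mul_add, ← integral_add
      (integrable_nu (f := fun z => (f z - F z) * (Berg (e k) z : ℂ))
        ((hf.sub hF).mul (cont_cberg k)))
      (integrable_nu (f := fun z => F z * (Berg (e k) z : ℂ)) (hF.mul (cont_cberg k)))]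
    congr 2
    funext z
    ring
  have e2 : ∫ z, f z ∂circ = ∫ z, (f z - F z) ∂circ + ∫ z, F z ∂circ := by
    rw [integral_sub (integrable_circ hf) (integrable_circ hF)]
    ring
  rw [e1, e2]
  have h4 := mean_bound he h2 k
  have h5 := circ_bound h2
  set A1 := ((k : ℂ) + 1)⁻¹ * ∫ z, (f z - F z) * (Berg (e k) z : ℂ) ∂nu
  set A2 := ((k : ℂ) + 1)⁻¹ * ∫ z, F z * (Berg (e k) z : ℂ) ∂nu
  set B1 := ∫ z, (f z - F z) ∂circ
  set B2 := ∫ z, F z ∂circ
  calc ‖A1 + A2 - (B1 + B2)‖ = ‖A1 - B1 + (A2 - B2)‖ := by congr 1; ring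
    _ ≤ ‖A1 - B1‖ + ‖A2 - B2‖ := norm_add_le _ _
    _ ≤ (‖A1‖ + ‖B1‖) + ‖A2 - B2‖ := by gcongr; exact norm_sub_le _ _
    _ < (ε / 3 + ε / 3) + ε / 3 := by linarith
    _ = ε := by ring

/-- property (S) -/
theorem propS (he : ∀ k, IsONB nu k (e k)) : PropS nu e circ := by
  intro f hf
  have h := lim_all he (f := fun z => (f z : ℂ)) (Complex.continuous_ofReal.comp hf)
  unfold Lim at h
  have h2 := (Complex.continuous_re.tendsto _).comp h
  have e1 : (∫ z, (f z : ℂ) ∂circ).re = ∫ z, f z ∂circ := by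
    rw [integral_complex_ofReal, Complex.ofReal_re]
  rw [e1] at h2
  refine h2.congr fun k => ?_
  simp only [Function.comp]
  have e2 : ((k : ℂ) + 1)⁻¹ * ∫ z, (f z : ℂ) * (Berg (e k) z : ℂ) ∂nu
      = ((((k : ℝ) + 1)⁻¹ * ∫ z, f z * Berg (e k) z ∂nu : ℝ) : ℂ) := by
    rw [inv_cast, Complex.ofReal_mul, ← integral_complex_ofReal]
    congr 2
    funext z
    push_cast
    ring
  rw [e2, Complex.ofReal_re]

end Pool.Agent.K1H23.Bm
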