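import Pool.Agent.K1H23.Bm.E
import Pool.Agent.K1H23.Bm.C2
import Pool.Agent.R212.Psh5

/-! The extremal function of the disc, its equilibrium measure, and the failure of (W). -/

set_option autoImplicit false

open MeasureTheory Polynomial Filter Topology Metric Set
open scoped BigOperators ENNReal ComplexConjugate Laplacian ContDiff

namespace Pool.Agent.K1H23.Bm

open Pool.Agent.R212.Psh (ee ee_norm continuous_ee Subharmonic annulus_max
  le_circleAverage_of_support subharmonic_of_continuous integral_W_mul_laplacian W continuous_W)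

theorem psh_iff (u : ℂ → EReal) : Psh u ↔ Subharmonic univ u := by
  unfold Psh Subharmonic
  rw [upperSemicontinuousOn_univ_iff]
  simp

/-- the extremal function of the closed disc -/
noncomputable def vv (z : ℂ) : ℝ := Real.posLog ‖z‖

theorem continuous_vv : Continuous vv := by
  unfold vv
  exact Real.continuous_posLog.comp continuous_norm

theorem vv_nonneg (z : ℂ) : 0 ≤ vv z := Real.posLog_nonneg

theorem vv_of_le {z : ℂ} (hz : ‖z‖ ≤ 1) : vv z = 0 := by
  unfold vv
  rw [Real.posLog_eq_zero_iff, abs_of_nonneg (norm_nonneg _)]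
  exact hz

theorem vv_of_ge {z : ℂ} (hz : 1 ≤ ‖z‖) : vv z = Real.log ‖z‖ := by
  unfold vv
  rw [Real.posLog_eq_log]
  rwa [abs_of_nonneg (norm_nonneg _)]

theorem psh_vv : Psh (fun z => ((vv z : ℝ) : EReal)) := by
  rw [psh_iff]
  refine subharmonic_of_continuous univ vv continuous_vv ?_
  intro c r hr
  rcases le_total ‖c‖ 1 with h | h
  · rw [vv_of_le h, ← Real.circleAverage_const (0 : ℝ) c r]
    apply Real.circleAverage_mono
    · exact circleIntegrable_const _ _ _
    · exact continuous_vv.continuousOn.circleIntegrable'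
    · intro x _
      exact vv_nonneg x
  · have hc : c ≠ 0 := by
      rintro rfl
      simp at h
      linarith
    refine le_circleAverage_of_support vv continuous_vv c hc 1 0 zero_le_one ?_ ?_ r hr
    · intro z _
      have : Real.log ‖z‖ ≤ vv z := le_max_right _ _
      linarith
    · rw [vv_of_ge h]
      ring

theorem vv_bound {u : ℂ → EReal} (hs' : Psh u)
    (hg : ∃ C : ℝ, ∀ w, u w ≤ ((Real.posLog ‖w‖ + C : ℝ) : EReal))
    (hK : ∀ w ∈ closedBall (0:ℂ) 1, u w ≤ 0) (z : ℂ) :
    u z ≤ ((vv z : ℝ) : EReal) := by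
  have hs := (psh_iff u).1 hs'
  rcases le_total ‖z‖ 1 with h | h
  · rw [vv_of_le h]
    exact hK z (by simpa using h)
  · rw [vv_of_ge h]
    obtain ⟨C, hC⟩ := hg
    have key : ∀ ε : ℝ, 0 < ε → u z ≤ (((1 + ε) * Real.log ‖z‖ + 0 : ℝ) : EReal) := by
      intro ε hε
      set R : ℝ := max (Real.exp ((|C| + 1) / ε)) (‖z‖) with hR
      have hexp : Real.exp ((|C| + 1) / ε) ≤ R := le_max_left _ _
      have hRz : ‖z‖ ≤ R := le_max_right _ _
      have h1R : 1 < R := by
        refine lt_of_lt_of_le ?_ hexp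
        rw [Real.one_lt_exp_iff]
        positivity
      have hlogR : (|C| + 1) / ε ≤ Real.log R := by
        rw [Real.le_log_iff_exp_le (by linarith)]
        exact hexp
      have hlogR' : |C| + 1 ≤ ε * Real.log R := by
        rw [div_le_iff₀ hε] at hlogR
        linarith
      refine annulus_max hs h1R (subset_univ _) (1 + ε) 0 ?_ ?_ z h hRz
      · intro x hx
        exact hK x (by simp [hx])
      · intro x hx
        refine (hC x).trans ?_
        rw [EReal.coe_le_coe_iff, Real.posLog_eq_log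
          (by rw [hx, abs_of_pos (by linarith)]; exact h1R.le), hx]
        have := le_abs_self C
        linarith
    rcases eq_or_ne (u z) ⊥ with hb | hb
    · rw [hb]
      exact bot_le
    · have htop' := (hs.2.1 z (mem_univ z)).ne
      lift u z to ℝ using ⟨htop', hb⟩ with s
      rw [EReal.coe_le_coe_iff]
      apply le_of_forall_pos_le_add
      intro δ hδ
      have hl := Real.log_nonneg h
      have := key (δ / (Real.log ‖z‖ + 1)) (by positivity)
      rw [EReal.coe_le_coe_iff] at this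
      have h3 : δ / (Real.log ‖z‖ + 1) * Real.log ‖z‖ ≤ δ := by
        rw [div_mul_eq_mul_div, div_le_iff₀ (by linarith)]
        nlinarith
      linarith

theorem isContVK_disc : IsContVK (closedBall 0 1) vv := by
  refine ⟨continuous_vv, fun z => le_antisymm ?_ ?_⟩
  · apply sSup_le
    rintro t ⟨u, hu, hg, hK, rfl⟩
    exact vv_bound hu hg hK z
  · apply le_sSup
    refine ⟨_, psh_vv, ⟨0, fun w => ?_⟩, fun w hw => ?_, rfl⟩
    · rw [add_zero]
      exact le_rfl
    · have hw' : ‖w‖ ≤ 1 := by simpa using hw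
      show ((vv w : ℝ) : EReal) ≤ 0
      rw [vv_of_le hw']
      simp

theorem vv_eq (z : ℂ) : vv z = W 1 z - W 0 z := by
  unfold vv W
  rw [Real.posLog_eq_log_max_one (norm_nonneg _), max_comm]
  ring

theorem isEquilibrium_circ : IsEquilibrium vv circ := by
  refine ⟨inferInstance, fun φ hφ hs => ?_⟩
  have h1 := integral_W_mul_laplacian hφ 1 hs
  have h0 := integral_W_mul_laplacian hφ 0 hs
  have h2 : Continuous (iteratedFDeriv ℝ 2 φ) :=
    (contDiff_infty.1 hφ 2).continuous_iteratedFDeriv (by norm_num)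
  have hlc : Continuous (Δ φ) := by
    rw [InnerProductSpace.laplacian_eq_iteratedFDeriv_complexPlane]
    exact (h2.eval_const _).add (h2.eval_const _)
  have hls : HasCompactSupport (Δ φ) := by
    have h3 : HasCompactSupport (iteratedFDeriv ℝ 2 φ) := hs.iteratedFDeriv 2
    have h4 := h3.comp_left (g := fun A : ContinuousMultilinearMap ℝ (fun _ : Fin 2 => ℂ) ℝ =>
      A ![1, 1] + A ![Complex.I, Complex.I]) (by simp)
    rw [InnerProductSpace.laplacian_eq_iteratedFDeriv_complexPlane]
    exact h4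
  have hint : ∀ α, Integrable (fun z => W α z * (Δ φ) z) := fun α =>
    (((continuous_W α).mul hlc).integrable_of_hasCompactSupport (hls.mul_left))
  have e1 : ∫ z, vv z * (Δ φ) z = ∫ θ in Ioc (-Real.pi) Real.pi, φ (ee θ) := by
    have : ∀ z, vv z * (Δ φ) z = W 1 z * (Δ φ) z - W 0 z * (Δ φ) z := by
      intro z
      rw [vv_eq]
      ring
    simp only [this]
    rw [integral_sub (hint 1) (hint 0), h1, h0]
    ring
  rw [e1, integral_circ hφ.continuous, smul_eq_mul]

theorem berg_zero_large {e : (k : ℕ) → Fin (k + 1) → ℂ[X]} (he : ∀ k, IsONB nu k (e k)) (j : ℕ) :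
    2 * (2:ℝ) ^ j ≤ (2 * (2:ℝ) ^ j)⁻¹ * Real.log (Berg (e (2 ^ j)) 0) := by
  have h := berg_lower_zero (j := j) (k := 2 ^ j) le_rfl
    (by have : 0 < 2 ^ j := by positivity
        omega) (he (2 ^ j))
  have ht := ta_pos j
  have ht' := ta_le' j
  have hB : (2 * ta j)⁻¹ ≤ Berg (e (2 ^ j)) 0 := by
    rw [inv_eq_one_div, div_le_iff₀ (by positivity)]
    linarith
  have h2 : (2:ℝ) ≤ Real.exp 1 := by have := Real.add_one_le_exp (1:ℝ); linarith
  have h4 : (1:ℝ) ≤ 2 ^ j := one_le_pow₀ (by norm_num)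
  have h3 : 2 * ta j ≤ Real.exp (-(4:ℝ) ^ (j + 1)) := by
    calc 2 * ta j ≤ Real.exp 1 * (ep j * Real.exp (-(4 * (2:ℝ) ^ j))) := by gcongr
      _ = Real.exp (1 + (-(4:ℝ) ^ (j + 1) + -(4 * (2:ℝ) ^ j))) := by
          unfold ep
          rw [Real.exp_add, Real.exp_add]
      _ ≤ _ := by
          apply Real.exp_le_exp.2
          linarith
  have h5 : (4:ℝ) ^ (j + 1) ≤ Real.log (Berg (e (2 ^ j)) 0) := by
    rw [Real.le_log_iff_exp_le (lt_of_lt_of_le (by positivity) hB)]
    refine le_trans ?_ hB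
    rw [le_inv_comm₀ (Real.exp_pos _) (by positivity), ← Real.exp_neg]
    exact h3
  have h6 : (4:ℝ) ^ (j + 1) = 2 * (2:ℝ) ^ j * (2 * (2:ℝ) ^ j) := by
    rw [show (4:ℝ) = 2 * 2 by norm_num, mul_pow, pow_succ]
    ring
  have h7 : (0:ℝ) < 2 * (2:ℝ) ^ j := by positivity
  rw [le_inv_mul_iff₀ h7, ← h6]
  exact h5

theorem tendsto_berg_zero {e : (k : ℕ) → Fin (k + 1) → ℂ[X]} (he : ∀ k, IsONB nu k (e k)) :
    Tendsto (fun j : ℕ => (2 * (2:ℝ) ^ j)⁻¹ * Real.log (Berg (e (2 ^ j)) 0)) atTop atTop := by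
  refine tendsto_atTop_mono (berg_zero_large he) ?_
  exact (tendsto_pow_atTop_atTop_of_one_lt (by norm_num : (1:ℝ) < 2)).const_mul_atTop
    (by norm_num : (0:ℝ) < 2)

theorem not_propW {e : (k : ℕ) → Fin (k + 1) → ℂ[X]} (he : ∀ k, IsONB nu k (e k)) :
    ¬ PropW e vv := by
  intro h
  have h1 := (tendstoLocallyUniformlyOn_univ.2 h).tendsto_at (mem_univ (0:ℂ))
  have h2 : Tendsto (fun j : ℕ => 2 ^ j) atTop (atTop : Filter ℕ) :=
    tendsto_pow_atTop_atTop_of_one_lt (by norm_num)
  have h3 := h1.comp h2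
  have h4 := tendsto_berg_zero he
  refine not_tendsto_nhds_of_tendsto_atTop h4 (vv 0) ?_
  refine h3.congr fun j => ?_
  simp only [Function.comp]
  push_cast
  rfl

theorem isAdmissible_nu : IsAdmissible (closedBall 0 1) nu := by
  refine ⟨inferInstance, ?_, norm_prop⟩
  refine measure_mono_null ?_ nu_compl_sphere
  rw [compl_subset_compl]
  exact sphere_subset_closedBall

end Pool.Agent.K1H23.Bm
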